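import Pool.Agent.NH25.UF.Gal
import Pool.Agent.NH25.DL.Nrm

/-!
# The ideal of the relations between multivalued functions is prime
-/

set_option autoImplicit false

open PowerSeries Module

namespace Pool.Agent.NH25.UF

open Pool.Agent.Y113.GG Pool.Agent.Y921.DB Pool.Agent.NH25.DG Pool.Agent.NH25.DL

variable {k : ℕ} {τ : Type}

/-- the evaluation at a point and at the logarithms -/
noncomputable abbrev evG (p : (Fin k → ℂ) → (Fin k → ℂ) → τ → ℂ) (z t : Fin k → ℂ) :
    MvPolynomial τ (MvPolynomial (Fin k) Qb) →+* ℂ :=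
  MvPolynomial.eval₂Hom (MvPolynomial.aeval z : MvPolynomial (Fin k) Qb →ₐ[Qb] ℂ).toRingHom (p z t)

/-- the ideal of the relations -/
noncomputable def relI (p : (Fin k → ℂ) → (Fin k → ℂ) → τ → ℂ) (r : ℝ) :
    Ideal (MvPolynomial τ (MvPolynomial (Fin k) Qb)) where
  carrier := {G | ∀ z : Fin k → ℂ, (∀ l, ‖z l‖ < r) → ∀ t : Fin k → ℂ, evG p z t G = 0}
  add_mem' := fun {a b} ha hb z hz t => by rw [map_add, ha z hz t, hb z hz t, add_zero]
  zero_mem' := fun z hz t => map_zero _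
  smul_mem' := fun c x hx z hz t => by rw [smul_eq_mul, map_mul, hx z hz t, mul_zero]

lemma mem_relI {p : (Fin k → ℂ) → (Fin k → ℂ) → τ → ℂ} {r : ℝ} {G : MvPolynomial τ (MvPolynomial (Fin k) Qb)} :
    G ∈ relI p r ↔ ∀ z : Fin k → ℂ, (∀ l, ‖z l‖ < r) → ∀ t : Fin k → ℂ, evG p z t G = 0 := Iff.rfl

/-- the domain -/
def dom (k : ℕ) (r : ℝ) : Set ((Fin k → ℂ) × (Fin k → ℂ)) := {x | ∀ l, ‖x.1 l‖ < r}

lemma dom_pre (r : ℝ) : IsPreconnected (dom k r) := by
  have h1 : Convex ℝ (dom k r) := by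
    intro x hx y hy a b ha hb hab l
    have h2 := hx l
    have h3 := hy l
    have h4 : ‖a • x.1 l + b • y.1 l‖ ≤ a * ‖x.1 l‖ + b * ‖y.1 l‖ := by
      refine (norm_add_le _ _).trans ?_
      rw [norm_smul, norm_smul, Real.norm_of_nonneg ha, Real.norm_of_nonneg hb]
    have h5 : a * ‖x.1 l‖ + b * ‖y.1 l‖ < r := by
      rcases eq_or_lt_of_le ha with h0 | h0
      · have hb1 : b = 1 := by linarith
        rw [← h0, hb1]
        linarith
      · have e1 : a * ‖x.1 l‖ < a * r := mul_lt_mul_of_pos_left h2 h0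
        have e2 : b * ‖y.1 l‖ ≤ b * r := mul_le_mul_of_nonneg_left h3.le hb
        calc a * ‖x.1 l‖ + b * ‖y.1 l‖ < a * r + b * r := by linarith
          _ = r := by rw [← add_mul, hab, one_mul]
    exact h4.trans_lt h5
  exact h1.isPreconnected

lemma dom_open (r : ℝ) : IsOpen (dom k r) := by
  have h3 : dom k r = ⋂ l, {x : (Fin k → ℂ) × (Fin k → ℂ) | ‖x.1 l‖ < r} := by
    ext x
    simp [dom]
  rw [h3]
  refine isOpen_iInter_of_finite fun l => ?_
  exact isOpen_lt (((continuous_apply l).comp continuous_fst).norm) continuous_const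

/-- analytic families -/
def An (p : (Fin k → ℂ) → (Fin k → ℂ) → τ → ℂ) (r : ℝ) : Prop :=
  ∀ i, AnalyticOnNhd ℂ (fun x : (Fin k → ℂ) × (Fin k → ℂ) => p x.1 x.2 i) (dom k r)

lemma an_coord (r : ℝ) (l : Fin k) :
    AnalyticOnNhd ℂ (fun x : (Fin k → ℂ) × (Fin k → ℂ) => x.1 l) (dom k r) := by
  intro x _
  exact ((ContinuousLinearMap.proj (R := ℂ) (φ := fun _ : Fin k => ℂ) l).comp
    (ContinuousLinearMap.fst ℂ (Fin k → ℂ) (Fin k → ℂ))).analyticAt x

lemma an_coord2 (r : ℝ) (l : Fin k) :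
    AnalyticOnNhd ℂ (fun x : (Fin k → ℂ) × (Fin k → ℂ) => x.2 l) (dom k r) := by
  intro x _
  exact ((ContinuousLinearMap.proj (R := ℂ) (φ := fun _ : Fin k => ℂ) l).comp
    (ContinuousLinearMap.snd ℂ (Fin k → ℂ) (Fin k → ℂ))).analyticAt x

lemma an_base (r : ℝ) (a : MvPolynomial (Fin k) Qb) :
    AnalyticOnNhd ℂ (fun x : (Fin k → ℂ) × (Fin k → ℂ) => MvPolynomial.aeval x.1 a) (dom k r) := by
  induction a using MvPolynomial.induction_on with
  | C c =>
    simp only [MvPolynomial.aeval_C]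
    exact analyticOnNhd_const
  | add f g hf hg =>
    simp only [map_add]
    exact hf.add hg
  | mul_X f l hf =>
    simp only [map_mul, MvPolynomial.aeval_X]
    exact hf.mul (an_coord r l)

lemma an_evG {p : (Fin k → ℂ) → (Fin k → ℂ) → τ → ℂ} {r : ℝ} (hp : An p r)
    (G : MvPolynomial τ (MvPolynomial (Fin k) Qb)) :
    AnalyticOnNhd ℂ (fun x : (Fin k → ℂ) × (Fin k → ℂ) => evG p x.1 x.2 G) (dom k r) := by
  induction G using MvPolynomial.induction_on with
  | C c =>
    simp only [MvPolynomial.coe_eval₂Hom, MvPolynomial.eval₂_C]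
    exact an_base r c
  | add f g hf hg =>
    simp only [map_add]
    exact hf.add hg
  | mul_X f l hf =>
    simp only [map_mul]
    refine hf.mul ?_
    simp only [MvPolynomial.coe_eval₂Hom, MvPolynomial.eval₂_X]
    exact hp l

theorem relI_prime {p : (Fin k → ℂ) → (Fin k → ℂ) → τ → ℂ} {r : ℝ} (hr : 0 < r) (hp : An p r) : (relI p r).IsPrime := by
  refine ⟨fun h => ?_, fun {G₁ G₂} h => ?_⟩
  · have h1 := mem_relI.1 ((Ideal.eq_top_iff_one _).1 h) 0 (fun l => by simpa using hr) 0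
    rw [map_one] at h1
    exact one_ne_zero h1
  · by_cases h1 : G₁ ∈ relI p r
    · exact Or.inl h1
    · right
      rw [mem_relI] at h h1 ⊢
      push Not at h1
      obtain ⟨z₀, hz₀, t₀, hne⟩ := h1
      have hx₀ : ((z₀, t₀) : (Fin k → ℂ) × (Fin k → ℂ)) ∈ dom k r := hz₀
      have hcont : ContinuousAt (fun x : (Fin k → ℂ) × (Fin k → ℂ) => evG p x.1 x.2 G₁) (z₀, t₀) :=
        (an_evG hp G₁ (z₀, t₀) hx₀).continuousAt
      have hev : ∀ᶠ x : (Fin k → ℂ) × (Fin k → ℂ) in nhds (z₀, t₀), evG p x.1 x.2 G₁ ≠ 0 := hcont.eventually_ne hne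
      have hopen : ∀ᶠ x : (Fin k → ℂ) × (Fin k → ℂ) in nhds (z₀, t₀), x ∈ dom k r := (dom_open r).mem_nhds hx₀
      have h2 : Set.EqOn (fun x : (Fin k → ℂ) × (Fin k → ℂ) => evG p x.1 x.2 G₂) 0 (dom k r) :=
        AnalyticOnNhd.eqOn_zero_of_preconnected_of_eventuallyEq_zero (an_evG hp G₂) (dom_pre r) hx₀ (by
        filter_upwards [hev, hopen] with x hx1 hx2
        have h3 := h x.1 hx2 x.2
        rw [map_mul] at h3
        exact (mul_eq_zero.1 h3).resolve_left hx1)
      intro z hz t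
      have hzt : ((z, t) : (Fin k → ℂ) × (Fin k → ℂ)) ∈ dom k r := hz
      have h4 := h2 hzt
      rw [Pi.zero_apply] at h4
      exact h4

lemma relI_C {p : (Fin k → ℂ) → (Fin k → ℂ) → τ → ℂ} {r : ℝ} (hr : 0 < r) (a : MvPolynomial (Fin k) Qb)
    (h : MvPolynomial.C a ∈ relI p r) : a = 0 := by
  have h1 : a.map (algebraMap Qb ℂ) = 0 := by
    refine MvPolynomial.funext_set (fun _ => Metric.ball (0 : ℂ) r) (fun _ => ?_) fun z hz => ?_
    · exact infinite_of_mem_nhds (0 : ℂ) (Metric.ball_mem_nhds 0 hr)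
    · have h2 := mem_relI.1 h z (fun l => by simpa using hz l (Set.mem_univ l)) 0
      rw [MvPolynomial.coe_eval₂Hom, MvPolynomial.eval₂_C] at h2
      rw [MvPolynomial.eval_map, map_zero]
      exact h2
  exact MvPolynomial.map_injective _ (algebraMap Qb ℂ).injective (h1.trans (map_zero _).symm)

section rep
variable {L : Type} [Field L] [NumberField L] [Algebra L ℂ]

lemma VL_an {g : L⟦X⟧} {A : ℝ} (hA : 0 < A) (hg : ∀ m : ℕ, ‖algebraMap L ℂ (coeff m g)‖ ≤ A ^ (m + 1)) :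
    AnalyticOnNhd ℂ (fun z => VL g z) (Metric.ball 0 (1 / A)) := by
  refine DifferentiableOn.analyticOnNhd ?_ Metric.isOpen_ball
  intro z hz
  rw [Metric.mem_ball, dist_zero_right] at hz
  obtain ⟨s, hs1, hs2⟩ := exists_between hz
  have hs0 : 0 ≤ s := (norm_nonneg z).trans hs1.le
  have hAs : A * s < 1 := by
    rw [lt_div_iff₀ hA] at hs2
    linarith
  have h1 : DifferentiableOn ℂ (fun w => ∑' m : ℕ, algebraMap L ℂ (coeff m g) * w ^ m) (Metric.ball 0 s) := by
    refine Complex.differentiableOn_tsum_of_summable_norm (u := fun m => A * (A * s) ^ m)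
      ((summable_geometric_of_lt_one (by positivity) hAs).mul_left _) (fun m => ?_) Metric.isOpen_ball fun m w hw => ?_
    · exact ((differentiable_const _).mul (differentiable_pow m)).differentiableOn
    · rw [Metric.mem_ball, dist_zero_right] at hw
      rw [norm_mul, norm_pow]
      calc ‖algebraMap L ℂ (coeff m g)‖ * ‖w‖ ^ m ≤ A ^ (m + 1) * s ^ m :=
            mul_le_mul (hg m) (pow_le_pow_left₀ (norm_nonneg _) hw.le _) (by positivity) (by positivity)
        _ = _ := by rw [mul_pow, pow_succ]; ring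
  exact (h1.differentiableAt (Metric.isOpen_ball.mem_nhds (by simpa using hs1))).differentiableWithinAt

variable {nn : Fin k → ℕ} {P : (Fin k → ℂ) → (Fin k → ℂ) → τ → ℂ} {ρ : ℝ}
  {H : ∀ l, Matrix (Fin (nn l)) (Fin (nn l)) L⟦X⟧}

/-- **The functions are analytic.** -/
theorem RepL_an (R : RepL P ρ H) (hρ : 0 < ρ) (hg : ∀ l i j, GFn (H l i j)) :
    ∃ r : ℝ, 0 < r ∧ r ≤ ρ ∧ ∀ r', r' ≤ r → An P r' := by
  classical
  choose B hB using hg
  set M : ℝ := 1 + ∑ l, ∑ i, ∑ j, |B l i j| with hM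
  have hM1 : 1 ≤ M := le_add_of_nonneg_right (by positivity)
  have hBM : ∀ l i j, |B l i j| ≤ M := by
    intro l i j
    have h1 : |B l i j| ≤ ∑ j, |B l i j| :=
      Finset.single_le_sum (f := fun j => |B l i j|) (fun _ _ => abs_nonneg _) (Finset.mem_univ j)
    have h2 : ∑ j, |B l i j| ≤ ∑ i, ∑ j, |B l i j| :=
      Finset.single_le_sum (f := fun i => ∑ j, |B l i j|) (fun _ _ => by positivity) (Finset.mem_univ i)
    have h3 : ∑ i, ∑ j, |B l i j| ≤ ∑ l, ∑ i, ∑ j, |B l i j| :=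
      Finset.single_le_sum (f := fun l => ∑ i, ∑ j, |B l i j|) (fun _ _ => by positivity) (Finset.mem_univ l)
    rw [hM]
    linarith
  have hM0 : 0 < M := by linarith
  refine ⟨min ρ (1 / M), lt_min hρ (by positivity), min_le_left _ _, fun r' hr' i => ?_⟩
  have hVL : ∀ a a', AnalyticOnNhd ℂ (fun x : (Fin k → ℂ) × (Fin k → ℂ) => VL (H (R.co i) a a') (x.1 (R.co i)))
      (dom k r') := by
    intro a a' x hx
    have h1 := VL_an (g := H (R.co i) a a') hM0 (fun m => by
      refine ((hB (R.co i) a a').1 (algebraMap L ℂ) m).trans ?_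
      refine (le_abs_self _).trans ?_
      rw [abs_pow]
      exact pow_le_pow_left₀ (abs_nonneg _) (hBM _ _ _) _) (x.1 (R.co i)) (by
        rw [Metric.mem_ball, dist_zero_right]
        exact (hx (R.co i)).trans_le (hr'.trans (min_le_right _ _)))
    exact AnalyticAt.comp' (f := fun x : (Fin k → ℂ) × (Fin k → ℂ) => x.1 (R.co i)) h1 (an_coord r' (R.co i) x hx)
  have h2 : AnalyticOnNhd ℂ (fun x : (Fin k → ℂ) × (Fin k → ℂ) => ∑ j, (R.c₀ i j + ∑ a, ∑ a', R.c i j a a' *
      VL (H (R.co i) a a') (x.1 (R.co i))) * x.2 (R.co i) ^ (j : ℕ)) (dom k r') := by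
    refine Finset.analyticOnNhd_fun_sum _ fun j _ => ?_
    refine AnalyticOnNhd.mul ?_ ((an_coord2 r' (R.co i)).pow _)
    refine analyticOnNhd_const.add ?_
    refine Finset.analyticOnNhd_fun_sum _ fun a _ => Finset.analyticOnNhd_fun_sum _ fun a' _ => ?_
    exact analyticOnNhd_const.mul (hVL a a')
  refine h2.congr (dom_open r') fun x hx => ?_
  exact (R.eq x.1 (fun l => (hx l).trans_le (hr'.trans (min_le_left _ _))) x.2 i).symm

end rep

end Pool.Agent.NH25.UF
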