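import Pool.Agent.NH25.UF.Cmp

/-!
# Relations over all number fields of bounded degree: components, counting and windows
-/

set_option autoImplicit false

open PowerSeries Module

namespace Pool.Agent.NH25.UF

open Pool.Agent.Y113.GG Pool.Agent.Y916 Pool.Agent.Y916.Al Pool.Agent.Y921.DB Pool.Agent.NH25.DG Pool.Agent.NH25.DL

section gen

variable {k₀ C : Type} [Field k₀] [CharZero k₀] [Field C] [Algebra k₀ C] [IsAlgClosed C] {k : ℕ} {τ : Type} [Fintype τ]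

/-- the ideal of the fibre -/
noncomputable abbrev Js {A Q : Type} [CommRing A] [CommRing Q] (𝔭 : Ideal (MvPolynomial τ A)) (φ : A →+* Q) :
    Ideal (MvPolynomial τ Q) := 𝔭.map (MvPolynomial.map φ)

/-- **A relation over a field of bounded degree vanishes on a component.** -/
theorem compC {Qc : IntermediateField k₀ C} [IsAlgClosure k₀ Qc] (hQc : ∀ x : C, IsIntegral k₀ x → x ∈ Qc)
    (𝔭 : Ideal (MvPolynomial τ (MvPolynomial (Fin k) Qc))) : ∃ L₀ : IntermediateField k₀ C, FiniteDimensional k₀ L₀ ∧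
      ∀ s : Fin k → Qc, ∀ (E : IntermediateField k₀ C) (D δ : ℕ),
      FiniteDimensional k₀ E → finrank k₀ E ≤ D → ∀ P : MvPolynomial τ C, P.totalDegree ≤ δ →
      (∀ e, P.coeff e ∈ E ⊔ IntermediateField.adjoin k₀ (Set.range fun l => (s l : C))) →
      (∀ N : MvPolynomial τ C, N.totalDegree ≤ D * δ →
        (∀ e, N.coeff e ∈ L₀ ⊔ IntermediateField.adjoin k₀ (Set.range fun l => (s l : C))) →
        P ∣ N → ∃ G ∈ 𝔭, G.map (MvPolynomial.aeval (fun l => (s l : C)) :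
          MvPolynomial (Fin k) Qc →ₐ[Qc] C).toRingHom = N) → Js 𝔭 (MvPolynomial.eval s) ≠ ⊤ →
      ∃ 𝔮 ∈ (Js 𝔭 (MvPolynomial.eval s)).minimalPrimes, ∃ F ∈ 𝔮, F.map (algebraMap Qc C) = P := by
  obtain ⟨L₀', hL₀, hmain⟩ := compQ (k₀ := k₀) (Q := Qc) 𝔭
  refine ⟨L₀'.map Qc.val, ?_, fun s E D δ hE hED P hPd hPc hN hne => ?_⟩
  · exact Module.Finite.equiv (IntermediateField.equivMap L₀' Qc.val).toLinearEquiv
  · have hEQ : E ≤ Qc := by
      intro x hx
      refine hQc x ?_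
      have h2 : IsIntegral k₀ (⟨x, hx⟩ : E) := Algebra.IsIntegral.isIntegral _
      exact h2.map (IsScalarTower.toAlgHom k₀ E C)
    set E' : IntermediateField k₀ Qc := E.comap Qc.val with hE'
    have hEE' : E'.map Qc.val = E := by
      ext x
      constructor
      · intro hx
        obtain ⟨y, hy, rfl⟩ := (IntermediateField.mem_map _).1 hx
        exact hy
      · intro hx
        exact (IntermediateField.mem_map _).2 ⟨⟨x, hEQ hx⟩, hx, rfl⟩
    have heq : finrank k₀ E' = finrank k₀ (E'.map Qc.val) :=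
      (IntermediateField.equivMap E' Qc.val).toLinearEquiv.finrank_eq
    have hE'f : FiniteDimensional k₀ E' := by
      have h1 : FiniteDimensional k₀ (E'.map Qc.val) := by
        rw [hEE']
        exact hE
      exact Module.Finite.equiv (IntermediateField.equivMap E' Qc.val).toLinearEquiv.symm
    have hE'D : finrank k₀ E' ≤ D := by
      rw [heq, hEE']
      exact hED
    have hsQ : IntermediateField.adjoin k₀ (Set.range fun l => (s l : C)) ≤ Qc := by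
      rw [IntermediateField.adjoin_le_iff]
      rintro _ ⟨l, rfl⟩
      exact (s l).2
    obtain ⟨F, hF⟩ := exists_descG Qc P fun e => (sup_le hEQ hsQ) (hPc e)
    have hFc : ∀ e, ((F.coeff e : Qc) : C) = P.coeff e := fun e => by
      rw [← hF, MvPolynomial.coeff_map]
      rfl
    have hsupp : F.support = P.support := by
      ext e
      rw [MvPolynomial.mem_support_iff, MvPolynomial.mem_support_iff, ← hFc]
      simp
    have hdegF : F.totalDegree = P.totalDegree := by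
      unfold MvPolynomial.totalDegree
      rw [hsupp]
    obtain ⟨𝔮, h𝔮, hF𝔮⟩ := hmain s E' D δ hE'f hE'D F (hdegF.le.trans hPd) (fun e => by
      rw [← mem_sup_map, hFc, hEE']
      exact hPc e) (fun N hNd hNc hdvd => by
      obtain ⟨G, hG1, hG3⟩ := hN (N.map (algebraMap Qc C)) ((Finset.sup_mono
        (MvPolynomial.support_map_subset _ _)).trans hNd) (fun e => by
          rw [MvPolynomial.coeff_map]
          exact (mem_sup_map Qc L₀' s _).2 (hNc e)) (by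
          rw [← hF]
          exact map_dvd (MvPolynomial.map (algebraMap Qc C)) hdvd)
      refine ⟨G, hG1, ?_⟩
      apply MvPolynomial.map_injective (algebraMap Qc C) (algebraMap Qc C).injective
      rw [map_comp_coe, hG3]) hne
    exact ⟨𝔮, h𝔮, F, hF𝔮, hF⟩

end gen

variable {k : ℕ} {τ : Type} [Fintype τ]

/-- every relation over `κ` vanishes on a component of the fibre at `s` -/
def CmpT (κ : IntermediateField ℚ ℂ) (p : (Fin k → ℂ) → (Fin k → ℂ) → τ → ℂ) (r : ℝ) (δ : ℕ) (s : Fin k → Qb)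
    (t : Fin k → ℂ) : Prop :=
  ∀ P : MvPolynomial τ ℂ, P.totalDegree ≤ δ → (∀ e, P.coeff e ∈ κ) →
    MvPolynomial.aeval (p (fun l => (s l : ℂ)) t) P = 0 →
    ∃ 𝔮 ∈ (Js (relI p r) (MvPolynomial.eval s)).minimalPrimes, ∃ F ∈ 𝔮, F.map (algebraMap Qb ℂ) = P

/-- **Components.** -/
theorem comp_spec (p : (Fin k → ℂ) → (Fin k → ℂ) → τ → ℂ) (r : ℝ) : ∃ L₀ : IntermediateField ℚ ℂ,
      FiniteDimensional ℚ L₀ ∧ ∀ (D δ : ℕ) (s : Fin k → Qb), Gd L₀ p r (D * δ) (fun l => (s l : ℂ)) →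
      ∀ K₀ : IntermediateField ℚ ℂ, FiniteDimensional ℚ K₀ → finrank ℚ K₀ ≤ D →
      ∀ t : Fin k → ℂ, (∀ l, Complex.exp (t l) = 1 / (s l : ℂ)) →
        CmpT (K₀ ⊔ IntermediateField.adjoin ℚ (Set.range fun l => (s l : ℂ))) p r δ s t := by
  obtain ⟨L₀, hL₀, hmain⟩ := compC (k₀ := ℚ) (C := ℂ) (Qc := Qb)
    (fun x hx => mem_algebraicClosure_iff'.2 hx) (relI p r)
  refine ⟨L₀, hL₀, fun D δ s hG K₀ hK₀ hKD t ht P hPd hPc hP => ?_⟩
  refine hmain s K₀ D δ hK₀ hKD P hPd hPc (fun N hNd hNc hdvd => ?_) ?_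
  · obtain ⟨G, hG1, hG2, hG3⟩ := hG.2 t ht N hNd hNc (by
      obtain ⟨N', rfl⟩ := hdvd
      rw [map_mul, hP, zero_mul])
    exact ⟨G, mem_relI.2 hG2, hG3⟩
  · -- the fibre is not empty
    have hGs := hG.1
    intro htop
    set z : Fin k → ℂ := fun l => (s l : ℂ) with hz
    set ev : MvPolynomial τ Qb →+* ℂ := (MvPolynomial.aeval (p z t) : MvPolynomial τ Qb →ₐ[Qb] ℂ).toRingHom with hev
    have h1 : Js (relI p r) (MvPolynomial.eval s) ≤ RingHom.ker ev := by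
      rw [Ideal.map_le_iff_le_comap]
      intro G hG
      rw [Ideal.mem_comap, RingHom.mem_ker, hev]
      show MvPolynomial.aeval (p z t) (G.map (MvPolynomial.eval s)) = 0
      have h2 := mem_relI.1 hG z hGs t
      rw [← h2, MvPolynomial.coe_eval₂Hom, MvPolynomial.aeval_def, MvPolynomial.eval₂_map]
      congr 1
      refine MvPolynomial.ringHom_ext (fun a => ?_) fun l => ?_
      · simp
      · simp [hz]
    rw [htop, top_le_iff] at h1
    exact RingHom.ker_ne_top ev h1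

/-- smaller fields -/
lemma gd_anti {K K' : IntermediateField ℚ ℂ} (h : K ≤ K') {p : (Fin k → ℂ) → (Fin k → ℂ) → τ → ℂ} {r : ℝ} {δ : ℕ}
    {s : Fin k → ℂ} (hG : Gd K' p r δ s) : Gd K p r δ s :=
  ⟨hG.1, fun t ht P hP hc h0 => hG.2 t ht P hP (fun e => sup_le_sup_right h _ (hc e)) h0⟩

/-- the statement over all number fields of degree at most `D` -/
def FullA (D : ℕ) (p : (Fin k → ℂ) → (Fin k → ℂ) → τ → ℂ) (r : ℝ) (δ : ℕ) (s : Fin k → Qb) : Prop :=
  ∀ K₀ : IntermediateField ℚ ℂ, FiniteDimensional ℚ K₀ → finrank ℚ K₀ ≤ D →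
    ∀ t : Fin k → ℂ, (∀ l, Complex.exp (t l) = 1 / (s l : ℂ)) →
      CmpT (K₀ ⊔ IntermediateField.adjoin ℚ (Set.range fun l => (s l : ℂ))) p r δ s t ∧
      (NoAlg (relI p r) → SpecT (K₀ ⊔ IntermediateField.adjoin ℚ (Set.range fun l => (s l : ℂ))) p r δ
        (fun l => (s l : ℂ)) t)

theorem full_spec {p : (Fin k → ℂ) → (Fin k → ℂ) → τ → ℂ} {r : ℝ} (hr : 0 < r) (hp : An p r) (D δ : ℕ) :
    ∃ (L₀ : IntermediateField ℚ ℂ) (Δ : MvPolynomial (Fin k) Qb), FiniteDimensional ℚ L₀ ∧ Δ ≠ 0 ∧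
      ∀ s : Fin k → Qb, MvPolynomial.eval s Δ ≠ 0 → Gd L₀ p r (D * δ) (fun l => (s l : ℂ)) → FullA D p r δ s := by
  obtain ⟨L₁, hL₁, h₁⟩ := comp_spec p r
  by_cases hna : NoAlg (relI p r)
  · obtain ⟨L₂, Δ, hL₂, hΔ, h₂⟩ := unif_spec hr hp hna D δ
    refine ⟨L₁ ⊔ L₂, Δ, IntermediateField.finiteDimensional_sup _ _, hΔ, fun s hs hG K₀ hK₀ hKD t ht => ⟨?_, fun _ => ?_⟩⟩
    · exact h₁ D δ s (gd_anti le_sup_left hG) K₀ hK₀ hKD t ht
    · exact (h₂ s hs (gd_anti le_sup_right hG) K₀ hK₀ hKD).2 t ht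
  · exact ⟨L₁, 1, hL₁, one_ne_zero, fun s _ hG K₀ hK₀ hKD t ht => ⟨h₁ D δ s hG K₀ hK₀ hKD t ht, fun h => absurd h hna⟩⟩

/-- the statement at a point -/
def Pnt (D : ℕ) (p : (Fin k → ℂ) → (Fin k → ℂ) → τ → ℂ) (r : ℝ) (δ : ℕ) (z : Fin k → ℂ) : Prop :=
  (∀ l, ‖z l‖ < r) ∧ ∃ s : Fin k → Qb, (fun l => (s l : ℂ)) = z ∧ FullA D p r δ s

section rep
variable {L : Type} [Field L] [NumberField L] [Algebra L ℂ] {nn : Fin k → ℕ}
  {P : (Fin k → ℂ) → (Fin k → ℂ) → τ → ℂ} {ρ : ℝ} {H : ∀ l, Matrix (Fin (nn l)) (Fin (nn l)) L⟦X⟧}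

open Classical in
/-- **Counting and windows.** -/
theorem full_count (R : RepL P ρ H) (hρ : 0 < ρ) {N : ∀ l, Matrix (Fin (nn l)) (Fin (nn l)) ℤ}
    (hH : ∀ l, LFam (N l) (H l)) :
    ∃ r : ℝ, 0 < r ∧ r ≤ ρ ∧ An P r ∧
      (∀ (δ D : ℕ) (m : Fin k → ℕ) (η : ℝ), 0 < η → η ≤ 1 → ∃ c C : ℝ, 0 < c ∧ 0 ≤ C ∧ ∀ T : ℕ, 1 ≤ T →
      ∀ a : Fin k → ℕ, (∀ i, 1 ≤ a i ∧ (a i : ℝ) ≤ (T : ℝ) ^ (1 - η)) →
      (((Fintype.piFinset fun l : Fin k => Sl.NF (m l) T).filter fun β =>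
        ¬ Pnt D P r δ (fun l => (a l : ℂ) / β l)).card : ℝ) ≤ C * (T : ℝ) ^ (((∑ l, Sl.Mm (m l) : ℕ) : ℝ) - c)) ∧
      (∀ δ D m A₀ : ℕ, ∃ M E' : ℕ,
      ∀ (g₀ : Fin k → ℕ) (K : Fin k → IntermediateField ℚ ℂ) (ξ : ∀ l, K l) (X : Fin k → ℝ),
      (∀ l, FiniteDimensional ℚ (K l)) → (∀ l, finrank ℚ (K l) ≤ m) → (∀ l, Pt (K l) (ξ l) (X l)) →
      (∀ l, ((g₀ l : ℝ) + 2) ^ E' ≤ ‖(ξ l : ℂ)‖) → (∀ l, X l ≤ ‖(ξ l : ℂ)‖ ^ A₀) →
      ((Fintype.piFinset fun l : Fin k => Finset.Icc (-(g₀ l : ℤ)) (g₀ l)).filter fun g =>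
        ¬ Pnt D P r δ (fun l => 1 / ((ξ l : ℂ) + (g l : ℂ)))).card ≤
        M * ∑ l, ∏ l' ∈ Finset.univ.erase l, (2 * g₀ l' + 1)) := by
  obtain ⟨r₁, hr₁, hr₁ρ, hAn⟩ := RepL_an R hρ fun l i j => (hH l).gfun i j
  obtain ⟨r, hr, hrr, hcount, hwin⟩ := (RepL.restrict R hr₁ρ).count hr₁ hH
  have hp : An P r := hAn r hrr
  refine ⟨r, hr, hrr.trans hr₁ρ, hp, fun δ D m η hη hη1 => ?_, fun δ D m A₀ => ?_⟩
  · obtain ⟨L₀, Δ, hL₀, hΔ, hmain⟩ := full_spec hr hp D δ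
    set Δc : MvPolynomial (Fin k) ℂ := Δ.map (algebraMap Qb ℂ) with hΔc
    have hΔc0 : Δc ≠ 0 := by
      intro h0
      apply hΔ
      exact MvPolynomial.map_injective _ (algebraMap Qb ℂ).injective (h0.trans (map_zero _).symm)
    obtain ⟨c, C₁, hc, hC₁, h₁⟩ := hcount (D * δ) (finrank ℚ L₀) m η hη hη1
    obtain ⟨C₂, hC₂, h₂⟩ := zeros_NF hΔc0 m
    refine ⟨min c 1, C₁ + C₂, lt_min hc one_pos, by positivity, fun T hT a ha => ?_⟩
    have hT1 : (1 : ℝ) ≤ T := by exact_mod_cast hT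
    have hsub : ((Fintype.piFinset fun l : Fin k => Sl.NF (m l) T).filter fun β =>
        ¬ Pnt D P r δ (fun l => (a l : ℂ) / β l)) ⊆
        ((Fintype.piFinset fun l : Fin k => Sl.NF (m l) T).filter fun β =>
          ¬ Gd L₀ P r (D * δ) (fun l => (a l : ℂ) / β l)) ∪
        ((Fintype.piFinset fun l : Fin k => Sl.NF (m l) T).filter fun β =>
          MvPolynomial.eval (fun l => (a l : ℂ) / β l) Δc = 0) := by
      intro β hβ
      obtain ⟨hβ1, hβ2⟩ := Finset.mem_filter.1 hβ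
      rw [Finset.mem_union, Finset.mem_filter, Finset.mem_filter]
      by_contra hcon
      push Not at hcon
      obtain ⟨h4, h5⟩ := hcon
      have h4 := h4 hβ1
      have h5 := h5 hβ1
      rw [Fintype.mem_piFinset] at hβ1
      have hint : ∀ l, IsIntegral ℚ ((a l : ℂ) / β l) := by
        intro l
        obtain ⟨g, g1, g2, g3, -⟩ := Sl.mem_NF.1 (hβ1 l)
        have h7 : IsIntegral ℚ (β l) := IsIntegral.tower_top (R := ℤ) ⟨g, g1, g3⟩
        have h8 : IsIntegral ℚ (a l : ℂ) := isIntegral_algebraMap (R := ℚ) (x := (a l : ℚ)) |> fun h => by simpa using h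
        rw [div_eq_mul_inv]
        exact h8.mul (h7.inv)
      set s : Fin k → Qb := fun l => ⟨(a l : ℂ) / β l, hint l⟩ with hs
      apply hβ2
      refine ⟨h4.1, s, rfl, hmain s ?_ h4⟩
      intro h7
      apply h5
      have h8 : MvPolynomial.eval (fun l => ((s l : Qb) : ℂ)) Δc = algebraMap Qb ℂ (MvPolynomial.eval s Δ) := by
        rw [hΔc, MvPolynomial.eval_map]
        have h9 : (fun l => ((s l : Qb) : ℂ)) = algebraMap Qb ℂ ∘ s := rfl
        rw [h9, ← MvPolynomial.aeval_def, MvPolynomial.aeval_algebraMap_apply]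
        rfl
      exact h8.trans (by rw [h7, map_zero])
    refine (Nat.cast_le.2 ((Finset.card_le_card hsub).trans (Finset.card_union_le _ _))).trans ?_
    rw [Nat.cast_add, add_mul]
    refine add_le_add ((h₁ L₀ hL₀ le_rfl T hT a ha).trans (mul_le_mul_of_nonneg_left ?_ hC₁))
      ((h₂ T hT a fun i => (ha i).1).trans (mul_le_mul_of_nonneg_left ?_ hC₂))
    · exact Real.rpow_le_rpow_of_exponent_le hT1 (by linarith [min_le_left c 1])
    · exact Real.rpow_le_rpow_of_exponent_le hT1 (by linarith [min_le_right c 1])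
  · obtain ⟨L₀, Δ, hL₀, hΔ, hmain⟩ := full_spec hr hp D δ
    set Δc : MvPolynomial (Fin k) ℂ := Δ.map (algebraMap Qb ℂ) with hΔc
    have hΔc0 : Δc ≠ 0 := by
      intro h0
      apply hΔ
      exact MvPolynomial.map_injective _ (algebraMap Qb ℂ).injective (h0.trans (map_zero _).symm)
    obtain ⟨M, E', hM⟩ := hwin (D * δ) (finrank ℚ L₀) m A₀
    refine ⟨M + ∑ l, Δc.degreeOf l, E', fun g₀ K ξ X h1 h2 h3 h4 h5 => ?_⟩
    have hsub : ((Fintype.piFinset fun l : Fin k => Finset.Icc (-(g₀ l : ℤ)) (g₀ l)).filter fun g =>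
          ¬ Pnt D P r δ (fun l => 1 / ((ξ l : ℂ) + (g l : ℂ)))) ⊆
        ((Fintype.piFinset fun l : Fin k => Finset.Icc (-(g₀ l : ℤ)) (g₀ l)).filter fun g =>
          ¬ Gd L₀ P r (D * δ) (fun l => 1 / ((ξ l : ℂ) + (g l : ℂ)))) ∪
        ((Fintype.piFinset fun l : Fin k => Finset.Icc (-(g₀ l : ℤ)) (g₀ l)).filter fun g =>
          MvPolynomial.eval (fun l => 1 / ((ξ l : ℂ) + (g l : ℂ))) Δc = 0) := by
      intro g hg
      obtain ⟨hg1, hg2⟩ := Finset.mem_filter.1 hg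
      rw [Finset.mem_union, Finset.mem_filter, Finset.mem_filter]
      by_contra hcon
      push Not at hcon
      obtain ⟨h4, h5⟩ := hcon
      have h4 := h4 hg1
      have h5 := h5 hg1
      have hint : ∀ l, IsIntegral ℚ ((1 : ℂ) / ((ξ l : ℂ) + (g l : ℂ))) := by
        intro l
        have := h1 l
        have h7 : IsIntegral ℚ (ξ l : ℂ) := by
          have h8 : IsIntegral ℚ (ξ l) := Algebra.IsIntegral.isIntegral _
          exact h8.map (IsScalarTower.toAlgHom ℚ (K l) ℂ)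
        have h8 : IsIntegral ℚ (g l : ℂ) := by
          have h9 := isIntegral_algebraMap (R := ℚ) (A := ℂ) (x := ((g l : ℤ) : ℚ))
          rwa [map_intCast] at h9
        rw [one_div]
        exact (h7.add h8).inv
      set s : Fin k → Qb := fun l => ⟨(1 : ℂ) / ((ξ l : ℂ) + (g l : ℂ)), hint l⟩ with hs
      apply hg2
      refine ⟨h4.1, s, rfl, hmain s ?_ h4⟩
      intro h7
      apply h5
      have h8 : MvPolynomial.eval (fun l => ((s l : Qb) : ℂ)) Δc = algebraMap Qb ℂ (MvPolynomial.eval s Δ) := by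
        rw [hΔc, MvPolynomial.eval_map]
        have h9 : (fun l => ((s l : Qb) : ℂ)) = algebraMap Qb ℂ ∘ s := rfl
        rw [h9, ← MvPolynomial.aeval_def, MvPolynomial.aeval_algebraMap_apply]
        rfl
      exact h8.trans (by rw [h7, map_zero])
    refine (Finset.card_le_card hsub).trans ((Finset.card_union_le _ _).trans ?_)
    rw [add_mul]
    exact add_le_add (hM L₀ hL₀ le_rfl g₀ K ξ X h1 h2 h3 h4 h5) (zeros_win hΔc0 g₀ _)

end rep

end Pool.Agent.NH25.UF
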