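import Pool.Agent.NH25.UF.Germ

/-!
# Components of the fibres of the closure
-/

set_option autoImplicit false

namespace Pool.Agent.NH25.UF

open Pool.Agent.Y113.GG Pool.Agent.Y921.DB Pool.Agent.NH25.DG Module

section norm

variable {k₀ Q : Type} [Field k₀] [CharZero k₀] [Field Q] [Algebra k₀ Q] [IsAlgClosure k₀ Q] {τ : Type} [Fintype τ]

open Classical in
/-- **The norm of a polynomial.** -/
theorem exists_norm (κ E : IntermediateField k₀ Q) (hκf : FiniteDimensional k₀ κ) (hE : FiniteDimensional k₀ E) {D : ℕ}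
    (hED : finrank k₀ E ≤ D) (F : MvPolynomial τ Q) (hFc : ∀ e, F.coeff e ∈ E ⊔ κ) :
    ∃ (n : ℕ) (σ : Fin n → (Q ≃ₐ[κ] Q)), n ≤ D ∧ (∃ i, F.map ((σ i : Q ≃ₐ[κ] Q) : Q →+* Q) = F) ∧
      ∀ c, (∏ i, F.map ((σ i : Q ≃ₐ[κ] Q) : Q →+* Q)).coeff c ∈ κ := by
  have hchQ : CharZero Q := charZero_of_injective_algebraMap (algebraMap k₀ Q).injective
  have halg : Algebra.IsAlgebraic k₀ Q := IsAlgClosure.isAlgebraic
  have hint : ∀ x : Q, IsIntegral k₀ x := fun x => Algebra.IsIntegral.isIntegral x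
  set xs : Set Q := (fun e => F.coeff e) '' (F.support : Set (τ →₀ ℕ)) with hxs
  have hxf : Finite xs := (F.support.finite_toSet.image _).to_subtype
  set M : IntermediateField κ Q := IntermediateField.adjoin κ xs with hM
  have hMf : FiniteDimensional κ M := IntermediateField.finiteDimensional_adjoin fun y _ => (hint y).tower_top
  have hcM : ∀ e, F.coeff e ∈ M := by
    intro e
    by_cases he : e ∈ F.support
    · exact IntermediateField.subset_adjoin κ _ ⟨e, he, rfl⟩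
    · rw [MvPolynomial.notMem_support_iff.1 he]
      exact zero_mem _
  have hMD : finrank κ M ≤ D := by
    have h1 : M.restrictScalars k₀ ≤ E ⊔ κ := by
      intro y hy
      have h2 : M ≤ IntermediateField.extendScalars (show κ ≤ E ⊔ κ from le_sup_right) := by
        rw [hM, IntermediateField.adjoin_le_iff]
        rintro _ ⟨e, -, rfl⟩
        exact hFc e
      exact h2 hy
    have hEκ : FiniteDimensional k₀ ↥(E ⊔ κ) := IntermediateField.finiteDimensional_sup _ _
    have h2 : finrank k₀ (M.restrictScalars k₀) ≤ finrank k₀ ↥(E ⊔ κ) := by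
      exact LinearMap.finrank_le_finrank_of_injective (f := (IntermediateField.inclusion h1).toLinearMap)
        (IntermediateField.inclusion_injective h1)
    have h3 : finrank k₀ κ * finrank κ M = finrank k₀ (M.restrictScalars k₀) := finrank_mul_finrank k₀ κ M
    have h4 := IntermediateField.finrank_sup_le E κ
    have h5 : 0 < finrank k₀ κ := finrank_pos
    have h6 : finrank k₀ κ * finrank κ M ≤ finrank k₀ κ * D := by
      rw [h3]
      refine h2.trans (h4.trans ?_)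
      rw [mul_comm]
      exact Nat.mul_le_mul_left _ hED
    exact Nat.le_of_mul_le_mul_left h6 h5
  have hcardM : Nat.card (M →ₐ[κ] Q) ≤ D := (card_algHom_le_finrank κ M Q).trans hMD
  have hfinM : Finite (M →ₐ[κ] Q) := inferInstance
  -- the orbit
  set O : Set (MvPolynomial τ Q) := Set.range fun σ : Q ≃ₐ[κ] Q => F.map ((σ : Q ≃ₐ[κ] Q) : Q →+* Q) with hO
  obtain ⟨F', hF'⟩ : ∃ F' : MvPolynomial τ M, F'.map (algebraMap M Q) = F := exists_descG M F hcM
  set gg : (M →ₐ[κ] Q) → MvPolynomial τ Q := fun f => F'.map (f : M →+* Q) with hgg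
  have hOg : O ⊆ Set.range gg := by
    rintro _ ⟨σ, rfl⟩
    refine ⟨(σ : Q →ₐ[κ] Q).comp M.val, ?_⟩
    rw [hgg]
    simp only
    conv_rhs => rw [← hF', MvPolynomial.map_map]
    rfl
  have hOf : O.Finite := (Set.finite_range gg).subset hOg
  have hOc : O.ncard ≤ D := by
    refine (Set.ncard_le_ncard hOg (Set.finite_range gg)).trans ?_
    rw [← Set.image_univ]
    refine (Set.ncard_image_le (Set.toFinite _)).trans ?_
    rw [Set.ncard_univ]
    exact hcardM
  have hOfin : Fintype O := hOf.fintype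
  have hOcard : Fintype.card O ≤ D := by
    have h1 : Fintype.card O = O.ncard := by
      rw [← Nat.card_eq_fintype_card]
      exact Nat.card_coe_set_eq O
    rw [h1]
    exact hOc
  have hgal : IsGalois κ Q := by
    have h1 : IsGalois k₀ Q := by
      have h3 : Normal k₀ Q := IsAlgClosure.normal k₀ Q
      exact ⟨⟩
    exact IsGalois.tower_top_intermediateField κ
  have hch : ∀ y : O, ∃ σ : Q ≃ₐ[κ] Q, F.map ((σ : Q ≃ₐ[κ] Q) : Q →+* Q) = y.1 := fun y => y.2
  choose σ₀ hσ₀ using hch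
  set eq := Fintype.equivFin O with heq
  have hprod : ∏ i, F.map ((σ₀ (eq.symm i) : Q ≃ₐ[κ] Q) : Q →+* Q) = ∏ y : O, y.1 := by
    rw [← eq.symm.prod_comp]
    exact Finset.prod_congr rfl fun i _ => hσ₀ _
  refine ⟨Fintype.card O, fun i => σ₀ (eq.symm i), hOcard, ?_, fun c => ?_⟩
  · have hFO : F ∈ O := ⟨AlgEquiv.refl, by
      have h1 : ((AlgEquiv.refl : Q ≃ₐ[κ] Q) : Q →+* Q) = RingHom.id Q := rfl
      simp only
      rw [h1, MvPolynomial.map_id]⟩
    refine ⟨eq ⟨F, hFO⟩, ?_⟩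
    have h1 := hσ₀ ⟨F, hFO⟩
    have h2 : eq.symm (eq ⟨F, hFO⟩) = ⟨F, hFO⟩ := eq.symm_apply_apply _
    simp only [h2]
    exact h1
  · rw [hprod]
    have h1 : (∏ y : O, y.1).coeff c ∈ Set.range (algebraMap κ Q) := by
      rw [InfiniteGalois.mem_range_algebraMap_iff_fixed]
      intro σ
      have hact : ∀ y : O, y.1.map ((σ : Q ≃ₐ[κ] Q) : Q →+* Q) ∈ O := by
        rintro ⟨_, ⟨σ', rfl⟩⟩
        refine ⟨σ'.trans σ, ?_⟩
        simp only
        rw [MvPolynomial.map_map]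
        rfl
      set act : O → O := fun y => ⟨y.1.map ((σ : Q ≃ₐ[κ] Q) : Q →+* Q), hact y⟩ with hactdef
      have hinj : Function.Injective act := by
        intro y y' h
        have h1 := congrArg Subtype.val h
        refine Subtype.ext ?_
        exact MvPolynomial.map_injective _ (RingHom.injective _) h1
      have hbij : Function.Bijective act := Finite.injective_iff_bijective.1 hinj
      have h3 : (∏ y : O, y.1).map ((σ : Q ≃ₐ[κ] Q) : Q →+* Q) = ∏ y : O, y.1 := by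
        rw [map_prod]
        exact Fintype.prod_bijective act hbij _ _ fun y => rfl
      have h2 := congrArg (fun P => MvPolynomial.coeff c P) h3
      simp only [MvPolynomial.coeff_map] at h2
      exact h2
    obtain ⟨y, hy⟩ := h1
    rw [← hy]
    exact y.2

end norm

section comp

variable {k₀ Q : Type} [Field k₀] [CharZero k₀] [Field Q] [Algebra k₀ Q] [IsAlgClosure k₀ Q] {τ : Type} [Fintype τ] {k : ℕ}

open Classical in
/-- **A relation over a field of bounded degree vanishes on a component.** -/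
theorem compQ (𝔭 : Ideal (MvPolynomial τ (MvPolynomial (Fin k) Q))) : ∃ L₀ : IntermediateField k₀ Q,
    FiniteDimensional k₀ L₀ ∧ ∀ s : Fin k → Q, ∀ (E : IntermediateField k₀ Q) (D δ : ℕ), FiniteDimensional k₀ E →
      finrank k₀ E ≤ D → ∀ F : MvPolynomial τ Q, F.totalDegree ≤ δ →
      (∀ e, F.coeff e ∈ E ⊔ IntermediateField.adjoin k₀ (Set.range s)) →
      (∀ N : MvPolynomial τ Q, N.totalDegree ≤ D * δ → (∀ e, N.coeff e ∈ L₀ ⊔ IntermediateField.adjoin k₀ (Set.range s)) →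
        F ∣ N → ∃ G ∈ 𝔭, G.map (MvPolynomial.eval s) = N) →
      𝔭.map (MvPolynomial.map (MvPolynomial.eval s)) ≠ ⊤ →
      ∃ 𝔮 ∈ (𝔭.map (MvPolynomial.map (MvPolynomial.eval s))).minimalPrimes, F ∈ 𝔮 := by
  have hchQ : CharZero Q := charZero_of_injective_algebraMap (algebraMap k₀ Q).injective
  have halg : Algebra.IsAlgebraic k₀ Q := IsAlgClosure.isAlgebraic
  have hint : ∀ x : Q, IsIntegral k₀ x := fun x => Algebra.IsIntegral.isIntegral x
  obtain ⟨g, hg⟩ : 𝔭.FG := IsNoetherian.noetherian 𝔭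
  set S : Set Q := ⋃ G : g, ⋃ e ∈ (G.1.support : Set (τ →₀ ℕ)), (fun e' => (G.1.coeff e).coeff e') ''
    ((G.1.coeff e).support : Set (Fin k →₀ ℕ)) with hS
  have hSf : S.Finite := Set.finite_iUnion fun G => (G.1.support.finite_toSet).biUnion fun e _ =>
    ((G.1.coeff e).support.finite_toSet.image _)
  set L₀ := IntermediateField.adjoin k₀ S with hL₀
  have hL₀f : FiniteDimensional k₀ L₀ := by
    have := hSf.to_subtype
    exact IntermediateField.finiteDimensional_adjoin fun x _ => hint x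
  have hcoef : ∀ G ∈ g, ∀ e e', (MvPolynomial.coeff e G).coeff e' ∈ L₀ := by
    intro G hG e e'
    by_cases he : e ∈ G.support
    · by_cases he' : e' ∈ (G.coeff e).support
      · exact IntermediateField.subset_adjoin k₀ S (Set.mem_iUnion.2 ⟨⟨G, hG⟩, Set.mem_biUnion he ⟨e', he', rfl⟩⟩)
      · rw [MvPolynomial.notMem_support_iff.1 he']
        exact zero_mem _
    · rw [MvPolynomial.notMem_support_iff.1 he, MvPolynomial.coeff_zero]
      exact zero_mem _
  refine ⟨L₀, hL₀f, fun s E D δ hE hED F hFd hFc hN hne => ?_⟩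
  set κs := IntermediateField.adjoin k₀ (Set.range s) with hκs
  have hκsf : FiniteDimensional k₀ κs := by
    have : Finite (Set.range s) := Set.finite_range s
    exact IntermediateField.finiteDimensional_adjoin fun x _ => hint x
  set κ := L₀ ⊔ κs with hκ
  have hκf : FiniteDimensional k₀ κ := IntermediateField.finiteDimensional_sup _ _
  obtain ⟨n, σ, hnD, ⟨i₀, hi₀⟩, hNc⟩ := exists_norm κ E hκf hE hED F fun e =>
    (sup_le_sup_left (le_sup_right : κs ≤ κ) E) (hFc e)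
  set J := 𝔭.map (MvPolynomial.map (MvPolynomial.eval s)) with hJ
  obtain ⟨G, hG, hGN⟩ := hN (∏ i, F.map ((σ i : Q ≃ₐ[κ] Q) : Q →+* Q)) (by
    refine (MvPolynomial.totalDegree_finsetProd _ _).trans ?_
    refine (Finset.sum_le_card_nsmul _ _ δ fun i _ => ?_).trans ?_
    · exact (Finset.sup_mono (MvPolynomial.support_map_subset _ _)).trans hFd
    · rw [Finset.card_univ, Fintype.card_fin, smul_eq_mul]
      exact Nat.mul_le_mul_right _ hnD) hNc (by
    have h1 := Finset.dvd_prod_of_mem (fun i => F.map ((σ i : Q ≃ₐ[κ] Q) : Q →+* Q)) (Finset.mem_univ i₀)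
    rw [hi₀] at h1
    exact h1)
  have hNJ : (∏ i, F.map ((σ i : Q ≃ₐ[κ] Q) : Q →+* Q)) ∈ J := by
    rw [← hGN]
    exact Ideal.mem_map_of_mem _ hG
  obtain ⟨𝔮, h𝔮⟩ := Ideal.nonempty_minimalPrimes hne
  have h𝔮p : 𝔮.IsPrime := h𝔮.1.1
  obtain ⟨i, -, hi⟩ := (Ideal.IsPrime.prod_mem_iff (p := 𝔮)).1 (h𝔮.1.2 hNJ)
  -- the automorphism
  set Φ : MvPolynomial τ Q →+* MvPolynomial τ Q := MvPolynomial.map ((σ i : Q ≃ₐ[κ] Q) : Q →+* Q) with hΦ
  set Ψ : MvPolynomial τ Q →+* MvPolynomial τ Q := MvPolynomial.map (((σ i).symm : Q ≃ₐ[κ] Q) : Q →+* Q) with hΨ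
  have hΦΨ : ∀ x, Φ (Ψ x) = x := by
    intro x
    rw [hΦ, hΨ, MvPolynomial.map_map]
    have h1 : (((σ i : Q ≃ₐ[κ] Q) : Q →+* Q)).comp (((σ i).symm : Q ≃ₐ[κ] Q) : Q →+* Q) = RingHom.id Q := by
      ext y
      exact (σ i).apply_symm_apply y
    rw [h1, MvPolynomial.map_id]
  have hΨΦ : ∀ x, Ψ (Φ x) = x := by
    intro x
    rw [hΦ, hΨ, MvPolynomial.map_map]
    have h1 : ((((σ i).symm : Q ≃ₐ[κ] Q) : Q →+* Q)).comp ((σ i : Q ≃ₐ[κ] Q) : Q →+* Q) = RingHom.id Q := by
      ext y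
      exact (σ i).symm_apply_apply y
    rw [h1, MvPolynomial.map_id]
  have hJg : J = Ideal.span ((fun G => G.map (MvPolynomial.eval s)) '' (g : Set (MvPolynomial τ (MvPolynomial (Fin k) Q)))) := by
    rw [hJ, ← hg, Ideal.map_span]
  have hfix : ∀ (ϑ : Q ≃ₐ[κ] Q), ∀ x ∈ J, MvPolynomial.map ((ϑ : Q ≃ₐ[κ] Q) : Q →+* Q) x ∈ J := by
    intro ϑ x hx
    have h1 : J ≤ J.comap (MvPolynomial.map ((ϑ : Q ≃ₐ[κ] Q) : Q →+* Q)) := by
      conv_lhs => rw [hJg]
      rw [Ideal.span_le]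
      rintro _ ⟨G, hG, rfl⟩
      rw [SetLike.mem_coe, Ideal.mem_comap]
      have h2 : MvPolynomial.map ((ϑ : Q ≃ₐ[κ] Q) : Q →+* Q) (G.map (MvPolynomial.eval s)) = G.map (MvPolynomial.eval s) := by
        ext c
        rw [MvPolynomial.coeff_map, MvPolynomial.coeff_map]
        have h3 : MvPolynomial.eval s (G.coeff c) ∈ κ := mem_of_coeffQ κ _
          (fun e => (le_sup_left : L₀ ≤ κ) (hcoef G hG c e)) fun l =>
          (le_sup_right : κs ≤ κ) (IntermediateField.subset_adjoin k₀ _ ⟨l, rfl⟩)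
        exact ϑ.commutes (⟨_, h3⟩ : κ)
      rw [h2, hJg]
      exact Ideal.subset_span ⟨G, hG, rfl⟩
    exact h1 hx
  have hpr : (𝔮.comap Φ).IsPrime := Ideal.IsPrime.comap Φ
  refine ⟨𝔮.comap Φ, ⟨⟨hpr, fun x hx => h𝔮.1.2 (hfix (σ i) x hx)⟩, fun 𝔯 h𝔯 hle x hx => ?_⟩, hi⟩
  have h𝔯p : 𝔯.IsPrime := h𝔯.1
  -- minimality
  have h1 : 𝔮 ≤ 𝔯.comap Ψ := by
    refine h𝔮.2 ⟨Ideal.IsPrime.comap Ψ, fun y hy => h𝔯.2 (hfix (σ i).symm y hy)⟩ fun y hy => ?_
    have h2 := hle (show Ψ y ∈ 𝔯 from hy)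
    rw [Ideal.mem_comap, hΦΨ] at h2
    exact h2
  have h3 : Ψ (Φ x) ∈ 𝔯 := h1 hx
  rwa [hΨΦ] at h3

end comp

end Pool.Agent.NH25.UF
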