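import Pool.Agent.NH25.UF.Main
import Pool.Agent.NH25.UF.An

/-!
# The degree statement over all number fields of bounded degree at once: counting and windows
-/

set_option autoImplicit false

open PowerSeries Module

namespace Pool.Agent.NH25.UF

open Pool.Agent.Y113.GG Pool.Agent.Y916 Pool.Agent.Y916.Al Pool.Agent.Y921.DB Pool.Agent.NH25.DG Pool.Agent.NH25.DL

variable {k : ℕ} {τ : Type} [Fintype τ]

/-- **From one field to all fields of bounded degree.** -/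
theorem unif_spec {p : (Fin k → ℂ) → (Fin k → ℂ) → τ → ℂ} {r : ℝ} (hr : 0 < r) (hp : An p r)
    (hH : NoAlg (relI p r)) (D δ : ℕ) : ∃ (L₀ : IntermediateField ℚ ℂ) (Δ : MvPolynomial (Fin k) Qb),
      FiniteDimensional ℚ L₀ ∧ Δ ≠ 0 ∧ ∀ s : Fin k → Qb, MvPolynomial.eval s Δ ≠ 0 →
      Gd L₀ p r (D * δ) (fun l => (s l : ℂ)) → ∀ K₀ : IntermediateField ℚ ℂ, FiniteDimensional ℚ K₀ →
      finrank ℚ K₀ ≤ D → Gd K₀ p r δ (fun l => (s l : ℂ)) := by
  have h1 : (relI p r).IsPrime := relI_prime hr hp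
  obtain ⟨L₀, Δ, hL₀, hΔ, hmain⟩ := unifC (k₀ := ℚ) (C := ℂ) (Qc := Qb)
    (fun x hx => mem_algebraicClosure_iff'.2 hx) (relI p r) (fun a ha => relI_C hr a ha) hH D δ
  refine ⟨L₀, Δ, hL₀, hΔ, fun s hs hG K₀ hK₀ hKD => ⟨hG.1, fun t ht P hPd hPc hP => ?_⟩⟩
  obtain ⟨G, hG1, hG2, hG3⟩ := hmain s hs K₀ hK₀ hKD P hPd hPc (fun N hNd hNc hdvd => by
    obtain ⟨G, hG1, hG2, hG3⟩ := hG.2 t ht N hNd hNc (by
      obtain ⟨N', rfl⟩ := hdvd
      rw [map_mul, hP, zero_mul])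
    exact ⟨G, mem_relI.2 hG2, hG1, hG3⟩)
  exact ⟨G, hG2, mem_relI.1 hG1, hG3⟩

/-- the statement for all number fields of degree at most `D` -/
def GdA (D : ℕ) (p : (Fin k → ℂ) → (Fin k → ℂ) → τ → ℂ) (r : ℝ) (δ : ℕ) (s : Fin k → ℂ) : Prop :=
  (∀ l, ‖s l‖ < r) ∧ ∀ K₀ : IntermediateField ℚ ℂ, FiniteDimensional ℚ K₀ → finrank ℚ K₀ ≤ D → Gd K₀ p r δ s

section rep
variable {L : Type} [Field L] [NumberField L] [Algebra L ℂ] {nn : Fin k → ℕ}
  {P : (Fin k → ℂ) → (Fin k → ℂ) → τ → ℂ} {ρ : ℝ} {H : ∀ l, Matrix (Fin (nn l)) (Fin (nn l)) L⟦X⟧}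

/-- restriction to a smaller polydisc -/
def RepL.restrict (R : RepL P ρ H) {ρ' : ℝ} (h : ρ' ≤ ρ) : RepL P ρ' H where
  e := R.e
  co := R.co
  c₀ := R.c₀
  c := R.c
  eq := fun z hz => R.eq z fun l => (hz l).trans_le h

open Classical in
/-- **Counting and windows, all number fields of bounded degree.** -/
theorem unif_count (R : RepL P ρ H) (hρ : 0 < ρ) {N : ∀ l, Matrix (Fin (nn l)) (Fin (nn l)) ℤ}
    (hH : ∀ l, LFam (N l) (H l)) :
    ∃ r : ℝ, 0 < r ∧ r ≤ ρ ∧ An P r ∧ (NoAlg (relI P r) →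
      (∀ (δ D : ℕ) (m : Fin k → ℕ) (η : ℝ), 0 < η → η ≤ 1 → ∃ c C : ℝ, 0 < c ∧ 0 ≤ C ∧ ∀ T : ℕ, 1 ≤ T →
      ∀ a : Fin k → ℕ, (∀ i, 1 ≤ a i ∧ (a i : ℝ) ≤ (T : ℝ) ^ (1 - η)) →
      (((Fintype.piFinset fun l : Fin k => Sl.NF (m l) T).filter fun β =>
        ¬ GdA D P r δ (fun l => (a l : ℂ) / β l)).card : ℝ) ≤ C * (T : ℝ) ^ (((∑ l, Sl.Mm (m l) : ℕ) : ℝ) - c)) ∧
      (∀ δ D m A₀ : ℕ, ∃ M E' : ℕ,
      ∀ (g₀ : Fin k → ℕ) (K : Fin k → IntermediateField ℚ ℂ) (ξ : ∀ l, K l) (X : Fin k → ℝ),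
      (∀ l, FiniteDimensional ℚ (K l)) → (∀ l, finrank ℚ (K l) ≤ m) → (∀ l, Pt (K l) (ξ l) (X l)) →
      (∀ l, ((g₀ l : ℝ) + 2) ^ E' ≤ ‖(ξ l : ℂ)‖) → (∀ l, X l ≤ ‖(ξ l : ℂ)‖ ^ A₀) →
      ((Fintype.piFinset fun l : Fin k => Finset.Icc (-(g₀ l : ℤ)) (g₀ l)).filter fun g =>
        ¬ GdA D P r δ (fun l => 1 / ((ξ l : ℂ) + (g l : ℂ)))).card ≤
        M * ∑ l, ∏ l' ∈ Finset.univ.erase l, (2 * g₀ l' + 1))) := by
  obtain ⟨r₁, hr₁, hr₁ρ, hAn⟩ := RepL_an R hρ fun l i j => (hH l).gfun i j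
  obtain ⟨r, hr, hrr, hcount, hwin⟩ := (RepL.restrict R hr₁ρ).count hr₁ hH
  have hp : An P r := hAn r hrr
  refine ⟨r, hr, hrr.trans hr₁ρ, hp, fun hna => ⟨fun δ D m η hη hη1 => ?_, fun δ D m A₀ => ?_⟩⟩
  · obtain ⟨L₀, Δ, hL₀, hΔ, hmain⟩ := unif_spec hr hp hna D δ
    set Δc : MvPolynomial (Fin k) ℂ := Δ.map (algebraMap Qb ℂ) with hΔc
    have hΔc0 : Δc ≠ 0 := by
      intro h0
      apply hΔ
      exact MvPolynomial.map_injective _ (algebraMap Qb ℂ).injective (h0.trans (map_zero _).symm)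
    obtain ⟨c, C₁, hc, hC₁, h₁⟩ := hcount (D * δ) (finrank ℚ L₀) m η hη hη1
    obtain ⟨C₂, hC₂, h₂⟩ := zeros_NF hΔc0 m
    refine ⟨min c 1, C₁ + C₂, lt_min hc one_pos, by positivity, fun T hT a ha => ?_⟩
    have hT1 : (1 : ℝ) ≤ T := by exact_mod_cast hT
    have hsub : ((Fintype.piFinset fun l : Fin k => Sl.NF (m l) T).filter fun β =>
        ¬ GdA D P r δ (fun l => (a l : ℂ) / β l)) ⊆
        ((Fintype.piFinset fun l : Fin k => Sl.NF (m l) T).filter fun β =>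
          ¬ Gd L₀ P r (D * δ) (fun l => (a l : ℂ) / β l)) ∪
        ((Fintype.piFinset fun l : Fin k => Sl.NF (m l) T).filter fun β =>
          MvPolynomial.eval (fun l => (a l : ℂ) / β l) Δc = 0) := by
      intro β hβ
      obtain ⟨hβ1, hβ2⟩ := Finset.mem_filter.1 hβ
      rw [Finset.mem_union, Finset.mem_filter, Finset.mem_filter]
      by_contra hcon
      push Not at hcon
      obtain ⟨h4, h5⟩ := hcon
      have h4 := h4 hβ1
      have h5 := h5 hβ1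
      rw [Fintype.mem_piFinset] at hβ1
      have hint : ∀ l, IsIntegral ℚ ((a l : ℂ) / β l) := by
        intro l
        obtain ⟨g, g1, g2, g3, -⟩ := Sl.mem_NF.1 (hβ1 l)
        have h7 : IsIntegral ℚ (β l) := IsIntegral.tower_top (R := ℤ) ⟨g, g1, g3⟩
        have h8 : IsIntegral ℚ (a l : ℂ) := isIntegral_algebraMap (R := ℚ) (x := (a l : ℚ)) |> fun h => by simpa using h
        rw [div_eq_mul_inv]
        exact h8.mul (h7.inv)
      set s : Fin k → Qb := fun l => ⟨(a l : ℂ) / β l, hint l⟩ with hs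
      apply hβ2
      refine ⟨h4.1, fun K₀ hK₀ hKD => hmain s ?_ h4 K₀ hK₀ hKD⟩
      intro h7
      apply h5
      have h8 : MvPolynomial.eval (fun l => ((s l : Qb) : ℂ)) Δc = algebraMap Qb ℂ (MvPolynomial.eval s Δ) := by
        rw [hΔc, MvPolynomial.eval_map]
        have h9 : (fun l => ((s l : Qb) : ℂ)) = algebraMap Qb ℂ ∘ s := rfl
        rw [h9, ← MvPolynomial.aeval_def, MvPolynomial.aeval_algebraMap_apply]
        rfl
      exact h8.trans (by rw [h7, map_zero])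
    refine (Nat.cast_le.2 ((Finset.card_le_card hsub).trans (Finset.card_union_le _ _))).trans ?_
    rw [Nat.cast_add, add_mul]
    refine add_le_add ((h₁ L₀ hL₀ le_rfl T hT a ha).trans (mul_le_mul_of_nonneg_left ?_ hC₁))
      ((h₂ T hT a fun i => (ha i).1).trans (mul_le_mul_of_nonneg_left ?_ hC₂))
    · exact Real.rpow_le_rpow_of_exponent_le hT1 (by linarith [min_le_left c 1])
    · exact Real.rpow_le_rpow_of_exponent_le hT1 (by linarith [min_le_right c 1])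
  · obtain ⟨L₀, Δ, hL₀, hΔ, hmain⟩ := unif_spec hr hp hna D δ
    set Δc : MvPolynomial (Fin k) ℂ := Δ.map (algebraMap Qb ℂ) with hΔc
    have hΔc0 : Δc ≠ 0 := by
      intro h0
      apply hΔ
      exact MvPolynomial.map_injective _ (algebraMap Qb ℂ).injective (h0.trans (map_zero _).symm)
    obtain ⟨M, E', hM⟩ := hwin (D * δ) (finrank ℚ L₀) m A₀
    refine ⟨M + ∑ l, Δc.degreeOf l, E', fun g₀ K ξ X h1 h2 h3 h4 h5 => ?_⟩
    have hsub : ((Fintype.piFinset fun l : Fin k => Finset.Icc (-(g₀ l : ℤ)) (g₀ l)).filter fun g =>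
          ¬ GdA D P r δ (fun l => 1 / ((ξ l : ℂ) + (g l : ℂ)))) ⊆
        ((Fintype.piFinset fun l : Fin k => Finset.Icc (-(g₀ l : ℤ)) (g₀ l)).filter fun g =>
          ¬ Gd L₀ P r (D * δ) (fun l => 1 / ((ξ l : ℂ) + (g l : ℂ)))) ∪
        ((Fintype.piFinset fun l : Fin k => Finset.Icc (-(g₀ l : ℤ)) (g₀ l)).filter fun g =>
          MvPolynomial.eval (fun l => 1 / ((ξ l : ℂ) + (g l : ℂ))) Δc = 0) := by
      intro g hg
      obtain ⟨hg1, hg2⟩ := Finset.mem_filter.1 hg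
      rw [Finset.mem_union, Finset.mem_filter, Finset.mem_filter]
      by_contra hcon
      push Not at hcon
      obtain ⟨h4, h5⟩ := hcon
      have h4 := h4 hg1
      have h5 := h5 hg1
      have hint : ∀ l, IsIntegral ℚ ((1 : ℂ) / ((ξ l : ℂ) + (g l : ℂ))) := by
        intro l
        have := h1 l
        have h7 : IsIntegral ℚ (ξ l : ℂ) := by
          have h8 : IsIntegral ℚ (ξ l) := Algebra.IsIntegral.isIntegral _
          exact h8.map (IsScalarTower.toAlgHom ℚ (K l) ℂ)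
        have h8 : IsIntegral ℚ (g l : ℂ) := by
          have h9 := isIntegral_algebraMap (R := ℚ) (A := ℂ) (x := ((g l : ℤ) : ℚ))
          rwa [map_intCast] at h9
        rw [one_div]
        exact (h7.add h8).inv
      set s : Fin k → Qb := fun l => ⟨(1 : ℂ) / ((ξ l : ℂ) + (g l : ℂ)), hint l⟩ with hs
      apply hg2
      refine ⟨h4.1, fun K₀ hK₀ hKD => hmain s ?_ h4 K₀ hK₀ hKD⟩
      intro h7
      apply h5
      have h8 : MvPolynomial.eval (fun l => ((s l : Qb) : ℂ)) Δc = algebraMap Qb ℂ (MvPolynomial.eval s Δ) := by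
        rw [hΔc, MvPolynomial.eval_map]
        have h9 : (fun l => ((s l : Qb) : ℂ)) = algebraMap Qb ℂ ∘ s := rfl
        rw [h9, ← MvPolynomial.aeval_def, MvPolynomial.aeval_algebraMap_apply]
        rfl
      exact h8.trans (by rw [h7, map_zero])
    refine (Finset.card_le_card hsub).trans ((Finset.card_union_le _ _).trans ?_)
    rw [add_mul]
    exact add_le_add (hM L₀ hL₀ le_rfl g₀ K ξ X h1 h2 h3 h4 h5) (zeros_win hΔc0 g₀ _)

end rep

end Pool.Agent.NH25.UF
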