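import Mathlib

/-!
# Regular extensions of fields, and products of linear forms
-/

set_option autoImplicit false

open Polynomial

namespace Pool.Agent.NH25.UF

section fld

variable {K F : Type} [Field K] [CharZero K] [Field F] [Algebra K F]

/-- an embedding of the algebraic closures -/
noncomputable def jj (K F : Type) [Field K] [Field F] [Algebra K F] : AlgebraicClosure K →ₐ[K] AlgebraicClosure F :=
  IsAlgClosed.lift

omit [CharZero K] in
/-- powers of algebraic elements stay independent over a regular extension -/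
lemma li_pow (hK : ∀ x : F, IsIntegral K x → ∃ y : K, algebraMap K F y = x) (θ : AlgebraicClosure K) :
    LinearIndependent F (fun i : Fin (minpoly K θ).natDegree => jj K F θ ^ (i : ℕ)) := by
  have hθ : IsIntegral K θ := Algebra.IsIntegral.isIntegral θ
  have hjθ : IsIntegral K (jj K F θ) := hθ.map (jj K F)
  have hjF : IsIntegral F (jj K F θ) := hjθ.tower_top
  set g := minpoly F (jj K F θ) with hg
  have hdvd : g ∣ (minpoly K θ).map (algebraMap K F) := by
    refine minpoly.dvd _ _ ?_
    rw [Polynomial.aeval_map_algebraMap, Polynomial.aeval_algHom_apply, minpoly.aeval, map_zero]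
  have hcoef : ∀ i, IsIntegral K (g.coeff i) :=
    Polynomial.isIntegral_coeff_of_dvd (minpoly K θ) g (minpoly.monic hθ) (minpoly.monic hjF) hdvd
  obtain ⟨g₀, hg₀⟩ : ∃ g₀ : K[X], g₀.map (algebraMap K F) = g := by
    have h1 : g ∈ Polynomial.lifts (algebraMap K F) := by
      rw [Polynomial.lifts_iff_coeff_lifts]
      intro n
      exact hK _ (hcoef n)
    exact (Polynomial.mem_lifts g).1 h1
  have h0 : Polynomial.aeval θ g₀ = 0 := by
    apply (jj K F).toRingHom.injective
    rw [map_zero]
    show jj K F (Polynomial.aeval θ g₀) = 0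
    rw [← Polynomial.aeval_algHom_apply, ← Polynomial.aeval_map_algebraMap F, hg₀, hg, minpoly.aeval]
  have hg0 : g₀ ≠ 0 := by
    rintro rfl
    rw [Polynomial.map_zero] at hg₀
    exact minpoly.ne_zero hjF hg₀.symm
  have hdeg : (minpoly K θ).natDegree ≤ g.natDegree := by
    rw [← hg₀, Polynomial.natDegree_map]
    exact Polynomial.natDegree_le_of_dvd (minpoly.dvd _ _ h0) hg0
  have h1 := linearIndependent_pow (K := F) (jj K F θ)
  exact h1.comp (Fin.castLE hdeg) (Fin.castLE_injective hdeg)

/-- finitely many algebraic elements in terms of the powers of a primitive element -/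
lemma exists_pow {W : Type} [Finite W] (x : W → AlgebraicClosure K) : ∃ (θ : AlgebraicClosure K)
    (y : Fin (minpoly K θ).natDegree → W → K), ∀ w, x w = ∑ i, algebraMap K (AlgebraicClosure K) (y i w) * θ ^ (i : ℕ) := by
  classical
  have := Fintype.ofFinite W
  set E := IntermediateField.adjoin K (Set.range x) with hE
  have hfd : FiniteDimensional K E := by
    refine IntermediateField.finiteDimensional_adjoin (S := Set.range x) fun y _ => Algebra.IsIntegral.isIntegral y
  set pb := Field.powerBasisOfFiniteOfSeparable K E with hpb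
  set θ : AlgebraicClosure K := (pb.gen : AlgebraicClosure K) with hθ
  have hmin : minpoly K θ = minpoly K pb.gen := minpoly.algebraMap_eq (algebraMap E (AlgebraicClosure K)).injective pb.gen
  have hdim : pb.dim = (minpoly K θ).natDegree := by rw [hmin, PowerBasis.natDegree_minpoly]
  have hmem : ∀ w, x w ∈ E := fun w => IntermediateField.subset_adjoin K _ ⟨w, rfl⟩
  refine ⟨θ, fun i w => pb.basis.repr ⟨x w, hmem w⟩ (Fin.cast hdim.symm i), fun w => ?_⟩
  have h1 := pb.basis.sum_repr ⟨x w, hmem w⟩
  have h2 := congrArg (fun y : E => (y : AlgebraicClosure K)) h1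
  simp only [AddSubmonoidClass.coe_finsetSum] at h2
  rw [← h2, ← (finCongr hdim).sum_comp]
  refine Finset.sum_congr rfl fun i _ => ?_
  rw [PowerBasis.coe_basis]
  show ((pb.basis.repr ⟨x w, hmem w⟩ i • pb.gen ^ (i : ℕ) : E) : AlgebraicClosure K) = _
  rw [Algebra.smul_def]
  rfl

/-- **Extension of scalars of a space of relations.** -/
theorem rel_ext (hK : ∀ x : F, IsIntegral K x → ∃ y : K, algebraMap K F y = x) {W : Type} [Fintype W] (c : W → F)
    {J : Type} (R : J → W → K) (hR : ∀ y : W → K, (∀ j, ∑ w, R j w * y w = 0) ↔ ∑ w, algebraMap K F (y w) * c w = 0)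
    (x : W → AlgebraicClosure K) : (∀ j, ∑ w, algebraMap K (AlgebraicClosure K) (R j w) * x w = 0) ↔
      ∑ w, jj K F (x w) * algebraMap F (AlgebraicClosure F) (c w) = 0 := by
  classical
  obtain ⟨θ, y, hy⟩ := exists_pow x
  have hsc : ∀ a : K, jj K F (algebraMap K (AlgebraicClosure K) a) =
      algebraMap F (AlgebraicClosure F) (algebraMap K F a) := fun a => by
    rw [AlgHom.commutes]
    exact IsScalarTower.algebraMap_apply K F (AlgebraicClosure F) a
  have h1 : ∑ w, jj K F (x w) * algebraMap F (AlgebraicClosure F) (c w) =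
      ∑ i, (∑ w, algebraMap K F (y i w) * c w) • jj K F θ ^ (i : ℕ) := by
    have e1 : ∀ w, jj K F (x w) * algebraMap F (AlgebraicClosure F) (c w) =
        ∑ i, (algebraMap K F (y i w) * c w) • jj K F θ ^ (i : ℕ) := by
      intro w
      rw [hy w, map_sum, Finset.sum_mul]
      refine Finset.sum_congr rfl fun i _ => ?_
      rw [map_mul, map_pow, hsc, Algebra.smul_def, map_mul]
      ring
    rw [Finset.sum_congr rfl fun w _ => e1 w, Finset.sum_comm]
    refine Finset.sum_congr rfl fun i _ => ?_
    rw [Finset.sum_smul]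
  have h2 : ∀ j, ∑ w, algebraMap K (AlgebraicClosure K) (R j w) * x w = ∑ i, (∑ w, R j w * y i w) • θ ^ (i : ℕ) := by
    intro j
    have e1 : ∀ w, algebraMap K (AlgebraicClosure K) (R j w) * x w = ∑ i, (R j w * y i w) • θ ^ (i : ℕ) := by
      intro w
      rw [hy w, Finset.mul_sum]
      refine Finset.sum_congr rfl fun i _ => ?_
      rw [Algebra.smul_def, map_mul]
      ring
    rw [Finset.sum_congr rfl fun w _ => e1 w, Finset.sum_comm]
    refine Finset.sum_congr rfl fun i _ => ?_
    rw [Finset.sum_smul]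
  rw [h1]
  simp only [h2]
  have hli := li_pow hK θ
  have hli2 := linearIndependent_pow (K := K) θ
  constructor
  · intro h
    refine Finset.sum_eq_zero fun i _ => ?_
    have h3 : ∀ j, ∑ w, R j w * y i w = 0 := fun j => Fintype.linearIndependent_iff.1 hli2 _ (h j) i
    rw [(hR (y i)).1 h3, zero_smul]
  · intro h j
    refine Finset.sum_eq_zero fun i _ => ?_
    have h3 := Fintype.linearIndependent_iff.1 hli _ h i
    rw [(hR (y i)).2 h3 j, zero_smul]

/-- **Products.** -/
theorem gen_prod (hK : ∀ x : F, IsIntegral K x → ∃ y : K, algebraMap K F y = x) {W : Type} [Fintype W] [DecidableEq W]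
    (c : W → F) (D : ℕ) {J J' : Type} (R : J → W → K)
    (hR : ∀ y : W → K, (∀ j, ∑ w, R j w * y w = 0) ↔ ∑ w, algebraMap K F (y w) * c w = 0)
    (R' : J' → (Fin D → W) → K) (hR' : ∀ y : (Fin D → W) → K, (∀ j, ∑ w, R' j w * y w = 0) ↔
      ∑ w, algebraMap K F (y w) * ∏ i, c (w i) = 0) (x : Fin D → W → AlgebraicClosure K)
    (hx : ∀ j, ∑ w : Fin D → W, algebraMap K (AlgebraicClosure K) (R' j w) * ∏ i, x i (w i) = 0) :
    ∃ i, ∀ j, ∑ w, algebraMap K (AlgebraicClosure K) (R j w) * x i w = 0 := by
  have h1 := (rel_ext hK (fun w : Fin D → W => ∏ i, c (w i)) R' hR' fun w => ∏ i, x i (w i)).1 hx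
  have h2 : ∑ w : Fin D → W, jj K F (∏ i, x i (w i)) * algebraMap F (AlgebraicClosure F) (∏ i, c (w i)) =
      ∏ i, ∑ w, jj K F (x i w) * algebraMap F (AlgebraicClosure F) (c w) := by
    rw [Finset.prod_univ_sum, Fintype.piFinset_univ]
    refine Finset.sum_congr rfl fun w _ => ?_
    rw [map_prod, map_prod, Finset.prod_mul_distrib]
  rw [h2, Finset.prod_eq_zero_iff] at h1
  obtain ⟨i, -, hi⟩ := h1
  exact ⟨i, (rel_ext hK c R hR (x i)).2 hi⟩

omit [CharZero K] in
/-- linear equations for the relations -/
lemma exists_eqs {W : Type} [Fintype W] (c : W → F) : ∃ (r : ℕ) (R : Fin r → W → K),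
    ∀ y : W → K, (∀ j, ∑ w, R j w * y w = 0) ↔ ∑ w, algebraMap K F (y w) * c w = 0 := by
  classical
  set φ : (W → K) →ₗ[K] F := Fintype.linearCombination K c with hφ
  have hφa : ∀ y, φ y = ∑ w, algebraMap K F (y w) * c w := by
    intro y
    rw [hφ, Fintype.linearCombination_apply]
    exact Finset.sum_congr rfl fun w _ => by rw [Algebra.smul_def]
  set U := LinearMap.range φ with hU
  set b := Module.finBasis K U with hb
  set ψ : (W → K) →ₗ[K] (Fin (Module.finrank K U) → K) := b.equivFun.toLinearMap ∘ₗ φ.rangeRestrict with hψ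
  refine ⟨_, fun j w => ψ (Pi.single w 1) j, fun y => ?_⟩
  have h1 : ∀ j, ψ y j = ∑ w, ψ (Pi.single w 1) j * y w := by
    intro j
    have h2 : y = ∑ w, y w • (Pi.single w (1 : K) : W → K) := by
      funext w
      rw [Finset.sum_apply, Finset.sum_eq_single w]
      · simp
      · intro w' _ hw'
        simp [Pi.single_apply, Ne.symm hw']
      · intro hh
        exact absurd (Finset.mem_univ _) hh
    conv_lhs => rw [h2]
    rw [map_sum, Finset.sum_apply]
    refine Finset.sum_congr rfl fun w _ => ?_
    rw [map_smul, Pi.smul_apply, smul_eq_mul, mul_comm]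
  rw [← hφa]
  constructor
  · intro h
    have h3 : ψ y = 0 := funext fun j => (h1 j).trans (h j)
    have h4 : φ.rangeRestrict y = 0 := b.equivFun.map_eq_zero_iff.1 h3
    exact congrArg Subtype.val h4
  · intro h j
    have h4 : φ.rangeRestrict y = 0 := Subtype.ext h
    rw [← h1]
    show b.equivFun (φ.rangeRestrict y) j = 0
    rw [h4, map_zero]
    rfl

end fld

end Pool.Agent.NH25.UF
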