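import Pool.Agent.NH25.UF.Prime
import Pool.Agent.NH25.DG.Spec

/-!
# Relations over all number fields of bounded degree
-/

set_option autoImplicit false

namespace Pool.Agent.NH25.UF

open Pool.Agent.Y113.GG Pool.Agent.Y921.DB Pool.Agent.NH25.DG Module

section words

variable {τ : Type} [Fintype τ] {δ : ℕ}

/-- a polynomial of degree at most `δ` is a combination of words, with coefficients which are sums of its coefficients -/
lemma exists_fw {A : Type} [CommRing A] (P : MvPolynomial τ A) (hP : P.totalDegree ≤ δ) :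
    ∃ f : (Fin δ → Option τ) → A, P = ∑ w, MvPolynomial.C (f w) * wv (fun t => MvPolynomial.X t) w ∧
      ∀ S : AddSubmonoid A, (∀ e, P.coeff e ∈ S) → ∀ w, f w ∈ S := by
  classical
  have h : ∀ μ : τ →₀ ℕ, ∃ h : Fin δ → Option τ,
      μ ∈ P.support → wv (fun t => (MvPolynomial.X t : MvPolynomial τ A)) h = ∏ t, MvPolynomial.X t ^ μ t := by
    intro μ
    by_cases hμ : μ ∈ P.support
    · have h1 := (MvPolynomial.le_totalDegree hμ).trans hP
      rw [Finsupp.sum_fintype _ _ (fun _ => rfl)] at h1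
      obtain ⟨h, hh⟩ := exists_wv δ (fun i => μ i) h1
      exact ⟨h, fun _ => hh _ _⟩
    · exact ⟨fun _ => none, fun h => absurd h hμ⟩
  choose H hH using h
  refine ⟨fun w => ∑ μ ∈ P.support, if H μ = w then P.coeff μ else 0, ?_, fun S hS w => ?_⟩
  · conv_lhs => rw [P.as_sum]
    simp only [map_sum, Finset.sum_mul]
    rw [Finset.sum_comm]
    refine Finset.sum_congr rfl fun μ hμ => ?_
    rw [Finset.sum_eq_single (H μ)]
    · rw [if_pos rfl, hH μ hμ, MvPolynomial.monomial_eq, Finsupp.prod_fintype _ _ fun _ => pow_zero _]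
    · intro w _ hw
      rw [if_neg (Ne.symm hw), map_zero, zero_mul]
    · intro hh; exact absurd (Finset.mem_univ _) hh
  · refine S.sum_mem fun μ _ => ?_
    split_ifs
    · exact hS μ
    · exact S.zero_mem

end words

/-- the polynomial of a vector -/
noncomputable def Fw {τ A : Type} [Fintype τ] [CommRing A] {δ : ℕ} (x : (Fin δ → Option τ) → A) : MvPolynomial τ A :=
  ∑ w, MvPolynomial.C (x w) * wv (fun t => MvPolynomial.X t) w

lemma Fw_deg {τ A : Type} [Fintype τ] [CommRing A] {δ : ℕ} (x : (Fin δ → Option τ) → A) : (Fw x).totalDegree ≤ δ := by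
  unfold Fw
  refine MvPolynomial.totalDegree_finsetSum_le fun w _ => ?_
  refine (MvPolynomial.totalDegree_mul _ _).trans ?_
  rw [MvPolynomial.totalDegree_C, zero_add]
  exact degree_wv w

lemma Fw_map {τ A B : Type} [Fintype τ] [CommRing A] [CommRing B] {δ : ℕ} (φ : A →+* B) (x : (Fin δ → Option τ) → A) :
    (Fw x).map φ = Fw fun w => φ (x w) := by
  unfold Fw
  rw [map_sum]
  refine Finset.sum_congr rfl fun w _ => ?_
  rw [map_mul, MvPolynomial.map_C, map_wv]
  congr 2
  funext t
  rw [MvPolynomial.map_X]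

open Classical in
lemma Fw_one {τ A : Type} [Fintype τ] [CommRing A] {δ : ℕ} :
    Fw (Pi.single (fun _ => none) 1 : (Fin δ → Option τ) → A) = 1 := by
  unfold Fw
  rw [Finset.sum_eq_single (fun _ => none)]
  · rw [Pi.single_eq_same, map_one, one_mul]
    unfold wv
    simp
  · intro w _ hw
    rw [Pi.single_eq_of_ne hw, map_zero, zero_mul]
  · intro hh
    exact absurd (Finset.mem_univ _) hh

lemma mem_of_coeffQ {k₀ Q : Type} [Field k₀] [Field Q] [Algebra k₀ Q] {k : ℕ} (E : IntermediateField k₀ Q)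
    (P : MvPolynomial (Fin k) Q) (hP : ∀ e, P.coeff e ∈ E)
    {s : Fin k → Q} (hs : ∀ l, s l ∈ E) : MvPolynomial.eval s P ∈ E := by
  rw [MvPolynomial.eval_eq]
  exact sum_mem fun e _ => mul_mem (hP e) (prod_mem fun i _ => pow_mem (hs i) _)

open Classical in
/-- **All number fields of bounded degree.** -/
theorem unifQ {k₀ Q : Type} [Field k₀] [CharZero k₀] [Field Q] [Algebra k₀ Q] [IsAlgClosure k₀ Q] {k : ℕ} {τ : Type} [Fintype τ] (𝔭 : Ideal (MvPolynomial τ (MvPolynomial (Fin k) Q))) [𝔭.IsPrime]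
    (h0 : ∀ a : MvPolynomial (Fin k) Q, MvPolynomial.C a ∈ 𝔭 → a = 0) (hH : NoAlg 𝔭) (D δ : ℕ) :
    ∃ (L₀ : IntermediateField k₀ Q) (Δ : MvPolynomial (Fin k) Q), FiniteDimensional k₀ L₀ ∧ Δ ≠ 0 ∧
      ∀ s : Fin k → Q, MvPolynomial.eval s Δ ≠ 0 → ∀ E : IntermediateField k₀ Q, FiniteDimensional k₀ E →
      finrank k₀ E ≤ D → ∀ F : MvPolynomial τ Q, F.totalDegree ≤ δ →
      (∀ e, F.coeff e ∈ E ⊔ IntermediateField.adjoin k₀ (Set.range s)) →
      (∀ N : MvPolynomial τ Q, N.totalDegree ≤ D * δ → (∀ e, N.coeff e ∈ L₀ ⊔ IntermediateField.adjoin k₀ (Set.range s)) →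
        F ∣ N → ∃ G ∈ 𝔭, G.totalDegree ≤ D * δ ∧ G.map (MvPolynomial.eval s) = N) →
      ∃ G ∈ 𝔭, G.totalDegree ≤ δ ∧ G.map (MvPolynomial.eval s) = F := by
  have hchQ : CharZero Q := charZero_of_injective_algebraMap (algebraMap k₀ Q).injective
  have halg : Algebra.IsAlgebraic k₀ Q := IsAlgClosure.isAlgebraic
  have hchA : CharZero (MvPolynomial (Fin k) Q) := inferInstance
  obtain ⟨r, R, Δ, hΔ, hR, hspec⟩ := spec_prod 𝔭 h0 hH D δ
  -- the field of the coefficients
  set S : Set Q := ⋃ j : Fin r × (Fin δ → Option τ),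
    (fun e => (R j.1 j.2).coeff e) '' ((R j.1 j.2).support : Set (Fin k →₀ ℕ)) with hS
  have hSf : S.Finite := Set.finite_iUnion fun j => ((R j.1 j.2).support.finite_toSet.image _)
  have hint : ∀ x : Q, IsIntegral k₀ x := fun x => Algebra.IsIntegral.isIntegral x
  set L₀ := IntermediateField.adjoin k₀ S with hL₀
  have hL₀f : FiniteDimensional k₀ L₀ := by
    have := hSf.to_subtype
    exact IntermediateField.finiteDimensional_adjoin fun x _ => hint x
  have hcoef : ∀ j w e, (R j w).coeff e ∈ L₀ := by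
    intro j w e
    by_cases he : e ∈ (R j w).support
    · exact IntermediateField.subset_adjoin k₀ S (Set.mem_iUnion.2 ⟨(j, w), e, he, rfl⟩)
    · rw [MvPolynomial.notMem_support_iff.1 he]
      exact zero_mem _
  refine ⟨L₀, Δ, hL₀f, hΔ, fun s hs E hE hED F hFd hFc hN => ?_⟩
  obtain ⟨hker, hprod, hone⟩ := hspec Q MvPolynomial.C (MvPolynomial.eval s) (by ext x; simp) hs
  set κs := IntermediateField.adjoin k₀ (Set.range s) with hκs
  have hκsf : FiniteDimensional k₀ κs := by
    have : Finite (Set.range s) := Set.finite_range s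
    exact IntermediateField.finiteDimensional_adjoin fun x _ => hint x
  set κ := L₀ ⊔ κs with hκ
  have hκf : FiniteDimensional k₀ κ := IntermediateField.finiteDimensional_sup _ _
  have hRκ : ∀ j w, MvPolynomial.eval s (R j w) ∈ κ := fun j w =>
    mem_of_coeffQ κ _ (fun e => (le_sup_left : L₀ ≤ κ) (hcoef j w e)) fun l =>
      (le_sup_right : κs ≤ κ) (IntermediateField.subset_adjoin k₀ _ ⟨l, rfl⟩)
  -- the coefficients of the relation
  obtain ⟨x, hx, hxS⟩ := exists_fw F hFd
  have hx' : F = Fw x := hx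
  have hxE : ∀ w, x w ∈ E ⊔ κs := hxS (E ⊔ κs).toSubfield.toAddSubgroup.toAddSubmonoid hFc
  -- the field of the relation over `κ`
  set M : IntermediateField κ Q := IntermediateField.adjoin κ (Set.range x) with hM
  have hMf : FiniteDimensional κ M := by
    have : Finite (Set.range x) := Set.finite_range x
    exact IntermediateField.finiteDimensional_adjoin fun y _ => (hint y).tower_top
  have hMD : finrank κ M ≤ D := by
    have h1 : M.restrictScalars k₀ ≤ E ⊔ κ := by
      intro y hy
      have h2 : M ≤ IntermediateField.extendScalars (show κ ≤ E ⊔ κ from le_sup_right) := by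
        rw [hM, IntermediateField.adjoin_le_iff]
        rintro _ ⟨w, rfl⟩
        have h3 : E ⊔ κs ≤ E ⊔ κ := sup_le_sup_left le_sup_right _
        exact h3 (hxE w)
      exact h2 hy
    have hEκ : FiniteDimensional k₀ ↥(E ⊔ κ) := IntermediateField.finiteDimensional_sup _ _
    have h2 : finrank k₀ (M.restrictScalars k₀) ≤ finrank k₀ ↥(E ⊔ κ) := by
      exact LinearMap.finrank_le_finrank_of_injective (f := (IntermediateField.inclusion h1).toLinearMap)
        (IntermediateField.inclusion_injective h1)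
    have h3 : finrank k₀ κ * finrank κ M = finrank k₀ (M.restrictScalars k₀) := finrank_mul_finrank k₀ κ M
    have h4 := IntermediateField.finrank_sup_le E κ
    have h5 : 0 < finrank k₀ κ := finrank_pos
    have h6 : finrank k₀ κ * finrank κ M ≤ finrank k₀ κ * D := by
      rw [h3]
      refine h2.trans (h4.trans ?_)
      rw [mul_comm]
      exact Nat.mul_le_mul_left _ hED
    exact Nat.le_of_mul_le_mul_left h6 h5
  have hcardM : Nat.card (M →ₐ[κ] Q) ≤ D := (card_algHom_le_finrank κ M Q).trans hMD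
  have hfinM : Finite (M →ₐ[κ] Q) := inferInstance
  -- the orbit
  set O : Set ((Fin δ → Option τ) → Q) := Set.range fun σ : Q ≃ₐ[κ] Q => fun w => σ (x w) with hO
  set gg : (M →ₐ[κ] Q) → (Fin δ → Option τ) → Q := fun f w =>
    f ⟨x w, IntermediateField.subset_adjoin κ _ ⟨w, rfl⟩⟩ with hgg
  have hOg : O ⊆ Set.range gg := by
    rintro _ ⟨σ, rfl⟩
    exact ⟨(σ : Q →ₐ[κ] Q).comp M.val, rfl⟩
  have hOf : O.Finite := (Set.finite_range gg).subset hOg
  have hOc : O.ncard ≤ D := by
    refine (Set.ncard_le_ncard hOg (Set.finite_range gg)).trans ?_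
    rw [← Set.image_univ]
    refine (Set.ncard_image_le (Set.toFinite _)).trans ?_
    rw [Set.ncard_univ]
    exact hcardM
  have hOfin : Fintype O := hOf.fintype
  have hOcard : Fintype.card O ≤ D := by
    have h1 : Fintype.card O = O.ncard := by
      rw [← Nat.card_eq_fintype_card]
      exact Nat.card_coe_set_eq O
    rw [h1]
    exact hOc
  obtain ⟨e⟩ : Nonempty (O ↪ Fin D) := Function.Embedding.nonempty_of_card_le (by rwa [Fintype.card_fin])
  set x' : Fin D → (Fin δ → Option τ) → Q := fun i =>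
    if h : ∃ y : O, e y = i then h.choose.1 else Pi.single (fun _ => none) 1 with hx'def
  have hx'e : ∀ y : O, x' (e y) = y.1 := by
    intro y
    have h1 : ∃ y' : O, e y' = e y := ⟨y, rfl⟩
    rw [hx'def]
    simp only
    rw [dif_pos h1, e.injective h1.choose_spec]
  have hx'n : ∀ i, i ∉ Set.range e → x' i = Pi.single (fun _ => none) 1 := by
    intro i hi
    rw [hx'def]
    simp only
    rw [dif_neg]
    rintro ⟨y, hy⟩
    exact hi ⟨y, hy⟩
  set N : MvPolynomial τ Q := ∏ y : O, Fw y.1 with hNdef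
  have hNprod : N = ∏ i, Fw (x' i) := by
    refine Fintype.prod_of_injective e e.injective _ _ (fun i hi => ?_) fun y => ?_
    · rw [hx'n i hi]
      exact Fw_one
    · rw [hx'e]
  have hNdeg : N.totalDegree ≤ D * δ := by
    rw [hNdef]
    refine (MvPolynomial.totalDegree_finsetProd _ _).trans ?_
    refine (Finset.sum_le_card_nsmul _ _ δ fun y _ => Fw_deg _).trans ?_
    rw [Finset.card_univ, smul_eq_mul]
    exact Nat.mul_le_mul_right _ hOcard
  have hgal : IsGalois κ Q := by
    have h1 : IsGalois k₀ Q := by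
      have h3 : Normal k₀ Q := IsAlgClosure.normal k₀ Q
      exact ⟨⟩
    exact IsGalois.tower_top_intermediateField κ
  have hNσ : ∀ σ : Q ≃ₐ[κ] Q, N.map (σ : Q →+* Q) = N := by
    intro σ
    have hact : ∀ y : O, (fun w => σ (y.1 w)) ∈ O := by
      rintro ⟨_, ⟨σ', rfl⟩⟩
      exact ⟨σ'.trans σ, rfl⟩
    set act : O → O := fun y => ⟨fun w => σ (y.1 w), hact y⟩ with hactdef
    have hinj : Function.Injective act := by
      intro y y' h
      have h1 := congrArg Subtype.val h
      refine Subtype.ext (funext fun w => ?_)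
      exact σ.injective (congrFun h1 w)
    have hbij : Function.Bijective act := Finite.injective_iff_bijective.1 hinj
    rw [hNdef, map_prod]
    refine Fintype.prod_bijective act hbij _ _ fun y => ?_
    rw [Fw_map]
    rfl
  have hNc : ∀ c, N.coeff c ∈ κ := by
    intro c
    have h1 : N.coeff c ∈ Set.range (algebraMap κ Q) := by
      rw [InfiniteGalois.mem_range_algebraMap_iff_fixed]
      intro σ
      have h2 := congrArg (fun P => MvPolynomial.coeff c P) (hNσ σ)
      simp only [MvPolynomial.coeff_map] at h2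
      exact h2
    obtain ⟨y, hy⟩ := h1
    rw [← hy]
    exact y.2
  have hxO : x ∈ O := ⟨AlgEquiv.refl, rfl⟩
  have hdvd : F ∣ N := by
    have h1 : ∀ y : O, Fw y.1 ∣ N := fun y => Finset.dvd_prod_of_mem (fun y : O => Fw y.1) (Finset.mem_univ y)
    have h2 := h1 ⟨x, hxO⟩
    rw [hx']
    exact h2
  obtain ⟨G, hG1, hG2, hG3⟩ := hN N hNdeg hNc hdvd
  obtain ⟨i, hi⟩ := hprod x' ⟨G, hG1, hG2, by rw [hG3, hNprod]; rfl⟩
  have hir : i ∈ Set.range e := by
    by_contra hcon
    apply hone
    intro j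
    have h1 := hi j
    rw [hx'n i hcon, Finset.sum_eq_single (fun _ => none)] at h1
    · rwa [Pi.single_eq_same, mul_one] at h1
    · intro w _ hw
      rw [Pi.single_eq_of_ne hw, mul_zero]
    · intro hh
      exact absurd (Finset.mem_univ _) hh
  obtain ⟨⟨_, ⟨σ, rfl⟩⟩, rfl⟩ := hir
  rw [hx'e] at hi
  have hRx : ∀ j, ∑ w, MvPolynomial.eval s (R j w) * x w = 0 := by
    intro j
    apply σ.injective
    rw [map_zero, map_sum, ← hi j]
    refine Finset.sum_congr rfl fun w _ => ?_
    rw [map_mul]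
    congr 1
    exact σ.commutes (⟨_, hRκ j w⟩ : κ)
  obtain ⟨g, hg1, hg2⟩ := hker x hRx
  refine ⟨Fw g, (hR g).1 hg1, Fw_deg g, ?_⟩
  rw [Fw_map, hx']
  congr 1
  funext w
  exact hg2 w

end Pool.Agent.NH25.UF
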