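import Pool.Agent.NH25.UF.Fin

/-!
# Relations between the branches near the centre
-/

set_option autoImplicit false

open PowerSeries Module

namespace Pool.Agent.NH25.UF

open Pool.Agent.Y113.GG Pool.Agent.Y916 Pool.Agent.Y916.Al Pool.Agent.Y921.DB Pool.Agent.NH25.DG Pool.Agent.NH25.DL

variable {k : ℕ} {τ : Type} {L : Type} [Field L] [NumberField L] [Algebra L ℂ] {nn : Fin k → ℕ}
  {P : (Fin k → ℂ) → (Fin k → ℂ) → τ → ℂ} {ρ : ℝ} {H : ∀ l, Matrix (Fin (nn l)) (Fin (nn l)) L⟦X⟧}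

lemma evG_poly (R : RepL P ρ H) {z : Fin k → ℂ} (hz : ∀ l, ‖z l‖ < ρ) (G : MvPolynomial τ (MvPolynomial (Fin k) Qb)) :
    ∃ Q : MvPolynomial (Fin k) ℂ, ∀ t, evG P z t G = MvPolynomial.eval t Q := by
  set Qi : τ → MvPolynomial (Fin k) ℂ := fun i => ∑ j : Fin (R.e + 1),
    MvPolynomial.C (R.c₀ i j + ∑ a, ∑ a', R.c i j a a' * VL (H (R.co i) a a') (z (R.co i))) *
      MvPolynomial.X (R.co i) ^ (j : ℕ) with hQi
  refine ⟨MvPolynomial.eval₂Hom (MvPolynomial.C.comp
    (MvPolynomial.aeval z : MvPolynomial (Fin k) Qb →ₐ[Qb] ℂ).toRingHom) Qi G, fun t => ?_⟩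
  have h1 : evG P z t = (MvPolynomial.eval t).comp (MvPolynomial.eval₂Hom (MvPolynomial.C.comp
      (MvPolynomial.aeval z : MvPolynomial (Fin k) Qb →ₐ[Qb] ℂ).toRingHom) Qi) := by
    refine MvPolynomial.ringHom_ext (fun a => ?_) fun i => ?_
    · rw [MvPolynomial.coe_eval₂Hom, MvPolynomial.eval₂_C, RingHom.comp_apply, MvPolynomial.coe_eval₂Hom,
        MvPolynomial.eval₂_C, RingHom.comp_apply, MvPolynomial.eval_C]
    · rw [MvPolynomial.coe_eval₂Hom, MvPolynomial.eval₂_X, RingHom.comp_apply, MvPolynomial.coe_eval₂Hom,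
        MvPolynomial.eval₂_X, R.eq z hz t i, hQi]
      simp only [map_sum, map_mul, map_pow, MvPolynomial.eval_C, MvPolynomial.eval_X]
  rw [h1]
  rfl

/-- a relation on all branches near the centre is a relation for independent logarithms -/
theorem rel_iff (R : RepL P ρ H) {r : ℝ} (hr : 0 < r) (hrρ : r ≤ ρ) (hp : An P r)
    (G : MvPolynomial τ (MvPolynomial (Fin k) Qb)) :
    G ∈ relI P r ↔ ∃ r' : ℝ, 0 < r' ∧ ∀ z t : Fin k → ℂ, (∀ l, ‖z l‖ < r') → (∀ l, Complex.exp (t l) = z l) →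
      evG P z (-t) G = 0 := by
  constructor
  · intro h
    exact ⟨r, hr, fun z t hz _ => mem_relI.1 h z hz (-t)⟩
  · rintro ⟨r', hr', h⟩
    set r₀ := min r r' with hr₀
    have hr₀0 : 0 < r₀ := lt_min hr hr'
    -- the points with non-zero coordinates
    have h1 : ∀ z : Fin k → ℂ, (∀ l, ‖z l‖ < r₀) → (∀ l, z l ≠ 0) → ∀ t, evG P z t G = 0 := by
      intro z hz hz0 t
      obtain ⟨Q, hQ⟩ := evG_poly R (fun l => (hz l).trans_le ((min_le_left _ _).trans hrρ)) G
      have h2 : Q = 0 := by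
        refine MvPolynomial.funext_set (fun l => Set.range fun n : ℤ => -(Complex.log (z l) + n * (2 * Real.pi * Complex.I)))
          (fun l => ?_) fun x hx => ?_
        · refine Set.infinite_range_of_injective fun n n' hnn => ?_
          have h3 : (n : ℂ) * (2 * Real.pi * Complex.I) = n' * (2 * Real.pi * Complex.I) :=
            add_left_cancel (neg_injective hnn)
          have h4 : (2 * Real.pi * Complex.I : ℂ) ≠ 0 := Complex.two_pi_I_ne_zero
          exact_mod_cast mul_right_cancel₀ h4 h3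
        · rw [map_zero, ← hQ]
          choose n hn using fun l => hx l (Set.mem_univ l)
          have h3 : x = -fun l => Complex.log (z l) + n l * (2 * Real.pi * Complex.I) := by
            funext l
            exact (hn l).symm
          rw [h3]
          refine h z _ (fun l => (hz l).trans_le (min_le_right _ _)) fun l => ?_
          rw [Complex.exp_add, Complex.exp_log (hz0 l), Complex.exp_int_mul_two_pi_mul_I, mul_one]
      rw [hQ, h2, map_zero]
    rw [mem_relI]
    -- an interior point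
    set z₀ : Fin k → ℂ := fun _ => ((r₀ / 2 : ℝ) : ℂ) with hz₀
    have hz₀n : ∀ l, ‖z₀ l‖ < r₀ := fun l => by
      rw [hz₀]
      simp only
      rw [Complex.norm_real, Real.norm_of_nonneg (by linarith)]
      linarith
    have hx₀ : ((z₀, 0) : (Fin k → ℂ) × (Fin k → ℂ)) ∈ dom k r := fun l => (hz₀n l).trans_le (min_le_left _ _)
    have hopen : IsOpen {x : (Fin k → ℂ) × (Fin k → ℂ) | ∀ l, x.1 l ≠ 0} := by
      have h3 : {x : (Fin k → ℂ) × (Fin k → ℂ) | ∀ l, x.1 l ≠ 0} =
          ⋂ l, {x : (Fin k → ℂ) × (Fin k → ℂ) | x.1 l ≠ 0} := by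
        ext x
        simp
      rw [h3]
      refine isOpen_iInter_of_finite fun l => ?_
      exact isOpen_ne_fun ((continuous_apply l).comp continuous_fst) continuous_const
    have h2 : Set.EqOn (fun x : (Fin k → ℂ) × (Fin k → ℂ) => evG P x.1 x.2 G) 0 (dom k r) :=
      AnalyticOnNhd.eqOn_zero_of_preconnected_of_eventuallyEq_zero (an_evG hp G) (dom_pre r) hx₀ (by
      have e1 : ∀ᶠ x : (Fin k → ℂ) × (Fin k → ℂ) in nhds (z₀, 0), x ∈ dom k r₀ :=
        (dom_open r₀).mem_nhds hz₀n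
      have e2 : ∀ᶠ x : (Fin k → ℂ) × (Fin k → ℂ) in nhds (z₀, 0), ∀ l, x.1 l ≠ 0 := by
        refine hopen.mem_nhds fun l => ?_
        show ((r₀ / 2 : ℝ) : ℂ) ≠ 0
        exact_mod_cast (by linarith : (r₀ / 2 : ℝ) ≠ 0)
      filter_upwards [e1, e2] with x hx1 hx2
      exact h1 x.1 hx1 hx2 x.2)
    intro z hz t
    have hzt : ((z, t) : (Fin k → ℂ) × (Fin k → ℂ)) ∈ dom k r := hz
    have h4 := h2 hzt
    rw [Pi.zero_apply] at h4
    exact h4

end Pool.Agent.NH25.UF
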