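import Pool.Agent.NH25.UF.Gal

/-!
# Relations over all number fields of bounded degree, in an algebraically closed field
-/

set_option autoImplicit false

namespace Pool.Agent.NH25.UF

open Pool.Agent.Y113.GG Module

section gen

variable {k₀ C : Type} [Field k₀] [CharZero k₀] [Field C] [Algebra k₀ C] [IsAlgClosed C] {k : ℕ} {τ : Type} [Fintype τ]

omit [CharZero k₀] [IsAlgClosed C] [Fintype τ] in
lemma exists_descG (K : IntermediateField k₀ C) (P : MvPolynomial τ C) (h : ∀ e, P.coeff e ∈ K) :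
    ∃ P' : MvPolynomial τ K, P'.map (algebraMap K C) = P := by
  classical
  refine ⟨∑ e ∈ P.support, MvPolynomial.monomial e (⟨_, h e⟩ : K), ?_⟩
  rw [map_sum]
  conv_rhs => rw [P.as_sum]
  refine Finset.sum_congr rfl fun e _ => ?_
  rw [MvPolynomial.map_monomial]
  rfl

omit [CharZero k₀] [IsAlgClosed C] [Fintype τ] in
lemma map_comp_coe (K : IntermediateField k₀ C) (s : Fin k → K) (G : MvPolynomial τ (MvPolynomial (Fin k) K)) :
    (G.map (MvPolynomial.eval s)).map (algebraMap K C) =
      G.map (MvPolynomial.aeval (fun l => (s l : C)) : MvPolynomial (Fin k) K →ₐ[K] C).toRingHom := by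
  have h1 : (algebraMap K C).comp (MvPolynomial.eval s) =
      (MvPolynomial.aeval (fun l => (s l : C)) : MvPolynomial (Fin k) K →ₐ[K] C).toRingHom := by
    refine MvPolynomial.ringHom_ext (fun a => ?_) fun l => ?_
    · simp
    · simp
  rw [MvPolynomial.map_map, h1]

omit [CharZero k₀] [IsAlgClosed C] in
lemma mem_sup_map (K : IntermediateField k₀ C) (E' : IntermediateField k₀ K) (s : Fin k → K) (x : K) :
    (x : C) ∈ E'.map K.val ⊔ IntermediateField.adjoin k₀ (Set.range fun l => (s l : C)) ↔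
      x ∈ E' ⊔ IntermediateField.adjoin k₀ (Set.range s) := by
  have h1 : E'.map K.val ⊔ IntermediateField.adjoin k₀ (Set.range fun l => (s l : C)) =
      (E' ⊔ IntermediateField.adjoin k₀ (Set.range s)).map K.val := by
    rw [IntermediateField.map_sup, IntermediateField.adjoin_map]
    congr 2
    rw [← Set.range_comp]
    rfl
  rw [h1]
  constructor
  · intro h
    obtain ⟨y, hy, hyx⟩ := (IntermediateField.mem_map _).1 h
    have h2 : y = x := Subtype.ext hyx
    rwa [← h2]
  · intro h
    exact (IntermediateField.mem_map _).2 ⟨x, h, rfl⟩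

/-- **All number fields of bounded degree.** -/
theorem unifC {Qc : IntermediateField k₀ C} [IsAlgClosure k₀ Qc] (hQc : ∀ x : C, IsIntegral k₀ x → x ∈ Qc)
    (𝔭 : Ideal (MvPolynomial τ (MvPolynomial (Fin k) Qc))) [𝔭.IsPrime]
    (h0 : ∀ a : MvPolynomial (Fin k) Qc, MvPolynomial.C a ∈ 𝔭 → a = 0) (hH : NoAlg 𝔭) (D δ : ℕ) :
    ∃ (L₀ : IntermediateField k₀ C) (Δ : MvPolynomial (Fin k) Qc), FiniteDimensional k₀ L₀ ∧ Δ ≠ 0 ∧
      ∀ s : Fin k → Qc, MvPolynomial.eval s Δ ≠ 0 → ∀ E : IntermediateField k₀ C,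
      FiniteDimensional k₀ E → finrank k₀ E ≤ D → ∀ P : MvPolynomial τ C, P.totalDegree ≤ δ →
      (∀ e, P.coeff e ∈ E ⊔ IntermediateField.adjoin k₀ (Set.range fun l => (s l : C))) →
      (∀ N : MvPolynomial τ C, N.totalDegree ≤ D * δ →
        (∀ e, N.coeff e ∈ L₀ ⊔ IntermediateField.adjoin k₀ (Set.range fun l => (s l : C))) →
        P ∣ N → ∃ G ∈ 𝔭, G.totalDegree ≤ D * δ ∧ G.map (MvPolynomial.aeval (fun l => (s l : C)) :
          MvPolynomial (Fin k) Qc →ₐ[Qc] C).toRingHom = N) →
      ∃ G ∈ 𝔭, G.totalDegree ≤ δ ∧ G.map (MvPolynomial.aeval (fun l => (s l : C)) :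
          MvPolynomial (Fin k) Qc →ₐ[Qc] C).toRingHom = P := by
  obtain ⟨L₀', Δ, hL₀, hΔ, hmain⟩ := unifQ (k₀ := k₀) (Q := Qc) 𝔭 h0 hH D δ
  refine ⟨L₀'.map Qc.val, Δ, ?_, hΔ, fun s hs E hE hED P hPd hPc hN => ?_⟩
  · exact Module.Finite.equiv (IntermediateField.equivMap L₀' Qc.val).toLinearEquiv
  · have hEQ : E ≤ Qc := by
      intro x hx
      refine hQc x ?_
      have h2 : IsIntegral k₀ (⟨x, hx⟩ : E) := Algebra.IsIntegral.isIntegral _
      exact h2.map (IsScalarTower.toAlgHom k₀ E C)
    set E' : IntermediateField k₀ Qc := E.comap Qc.val with hE'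
    have hmem' : ∀ x : Qc, x ∈ E' ↔ (x : C) ∈ E := fun x => Iff.rfl
    have hEE' : E'.map Qc.val = E := by
      ext x
      constructor
      · intro hx
        obtain ⟨y, hy, rfl⟩ := (IntermediateField.mem_map _).1 hx
        exact hy
      · intro hx
        exact (IntermediateField.mem_map _).2 ⟨⟨x, hEQ hx⟩, hx, rfl⟩
    have heq : finrank k₀ E' = finrank k₀ (E'.map Qc.val) :=
      (IntermediateField.equivMap E' Qc.val).toLinearEquiv.finrank_eq
    have hE'f : FiniteDimensional k₀ E' := by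
      have h1 : FiniteDimensional k₀ (E'.map Qc.val) := by
        rw [hEE']
        exact hE
      exact Module.Finite.equiv (IntermediateField.equivMap E' Qc.val).toLinearEquiv.symm
    have hE'D : finrank k₀ E' ≤ D := by
      rw [heq, hEE']
      exact hED
    have hsQ : IntermediateField.adjoin k₀ (Set.range fun l => (s l : C)) ≤ Qc := by
      rw [IntermediateField.adjoin_le_iff]
      rintro _ ⟨l, rfl⟩
      exact (s l).2
    obtain ⟨F, hF⟩ := exists_descG Qc P fun e => (sup_le hEQ hsQ) (hPc e)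
    have hFc : ∀ e, ((F.coeff e : Qc) : C) = P.coeff e := fun e => by
      rw [← hF, MvPolynomial.coeff_map]
      rfl
    have hsupp : F.support = P.support := by
      ext e
      rw [MvPolynomial.mem_support_iff, MvPolynomial.mem_support_iff, ← hFc]
      simp
    have hdegF : F.totalDegree = P.totalDegree := by
      unfold MvPolynomial.totalDegree
      rw [hsupp]
    obtain ⟨G, hG1, hG2, hG3⟩ := hmain s hs E' hE'f hE'D F (hdegF.le.trans hPd) (fun e => by
      rw [← mem_sup_map, hFc, hEE']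
      exact hPc e) (fun N hNd hNc hdvd => by
      obtain ⟨G, hG1, hG2, hG3⟩ := hN (N.map (algebraMap Qc C)) ((Finset.sup_mono
        (MvPolynomial.support_map_subset _ _)).trans hNd) (fun e => by
          rw [MvPolynomial.coeff_map]
          exact (mem_sup_map Qc L₀' s _).2 (hNc e)) (by
          rw [← hF]
          exact map_dvd (MvPolynomial.map (algebraMap Qc C)) hdvd)
      refine ⟨G, hG1, hG2, ?_⟩
      apply MvPolynomial.map_injective (algebraMap Qc C) (algebraMap Qc C).injective
      rw [map_comp_coe, hG3])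
    refine ⟨G, hG1, hG2, ?_⟩
    rw [← map_comp_coe, hG3, hF]

end gen

end Pool.Agent.NH25.UF
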