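import Mathlib

/-!
# The theorem of zeros over a generic point
-/

set_option autoImplicit false

namespace Pool.Agent.NH25.UF

section null

variable {A : Type} [CommRing A] [IsDomain A]

/-- common denominators of finitely many polynomials -/
lemma exists_den {n α : Type} [Finite α] (c : α → MvPolynomial n (FractionRing A)) : ∃ (b : A) (q : α → MvPolynomial n A),
    b ≠ 0 ∧ ∀ a, (q a).map (algebraMap A (FractionRing A)) = MvPolynomial.C (algebraMap A (FractionRing A) b) * c a := by
  classical
  have := Fintype.ofFinite α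
  obtain ⟨b, hb⟩ := IsLocalization.exist_integer_multiples_of_finset (nonZeroDivisors A)
    ((Finset.univ : Finset α).biUnion fun a => (c a).support.image fun e => (c a).coeff e)
  have h1 : ∀ a e, ∃ x : A, algebraMap A (FractionRing A) x = (b : A) • (c a).coeff e := by
    intro a e
    by_cases he : e ∈ (c a).support
    · exact hb _ (Finset.mem_biUnion.2 ⟨a, Finset.mem_univ a, Finset.mem_image.2 ⟨e, he, rfl⟩⟩)
    · refine ⟨0, ?_⟩
      rw [MvPolynomial.notMem_support_iff.1 he, map_zero, smul_zero]
  choose x hx using h1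
  refine ⟨b, fun a => ∑ e ∈ (c a).support, MvPolynomial.monomial e (x a e), nonZeroDivisors.coe_ne_zero b, fun a => ?_⟩
  rw [map_sum]
  conv_rhs => rw [(c a).as_sum]
  rw [Finset.mul_sum]
  refine Finset.sum_congr rfl fun e _ => ?_
  rw [MvPolynomial.map_monomial, MvPolynomial.C_mul_monomial, hx, Algebra.smul_def]

/-- **The theorem of zeros over the algebraic closure of the field of fractions.** -/
theorem null {n α : Type} [Finite n] [Fintype α] (g : α → MvPolynomial n A) (h : MvPolynomial n A)
    (hz : ∀ x : n → AlgebraicClosure (FractionRing A), (∀ a, MvPolynomial.aeval x (g a) = 0) → MvPolynomial.aeval x h = 0) :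
    ∃ (Δ : A) (N : ℕ) (q : α → MvPolynomial n A), Δ ≠ 0 ∧ MvPolynomial.C Δ * h ^ N = ∑ a, q a * g a := by
  classical
  set K := FractionRing A with hK
  set I : Ideal (MvPolynomial n K) := Ideal.span (Set.range fun a => (g a).map (algebraMap A K)) with hI
  have hae : ∀ (x : n → AlgebraicClosure K) (p : MvPolynomial n A),
      MvPolynomial.aeval x (p.map (algebraMap A K)) = MvPolynomial.aeval x p := fun x p =>
    MvPolynomial.aeval_map_algebraMap K x p
  have h1 : h.map (algebraMap A K) ∈ I.radical := by
    rw [← MvPolynomial.vanishingIdeal_zeroLocus_eq_radical (K := AlgebraicClosure K) I,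
      MvPolynomial.mem_vanishingIdeal_iff]
    intro x hx
    rw [hae]
    refine hz x fun a => ?_
    rw [← hae]
    exact hx _ (Ideal.subset_span ⟨a, rfl⟩)
  obtain ⟨N, hN⟩ := h1
  rw [hI, Ideal.mem_span_range_iff_exists_fun] at hN
  obtain ⟨c, hc⟩ := hN
  obtain ⟨b, q, hb, hq⟩ := exists_den c
  refine ⟨b, N, q, hb, ?_⟩
  apply MvPolynomial.map_injective (algebraMap A K) (IsFractionRing.injective A K)
  rw [map_mul, MvPolynomial.map_C, map_pow, ← hc, map_sum, Finset.mul_sum]
  refine Finset.sum_congr rfl fun a _ => ?_
  rw [map_mul, hq, mul_assoc]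

end null

end Pool.Agent.NH25.UF
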