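import Pool.Agent.NH25.UF.Fld
import Pool.Agent.NH25.UF.Null
import Pool.Agent.Y921.DB.Spec

/-!
# Specialisation of the ideal of a variety whose function field is regular over the field of the base
-/

set_option autoImplicit false

open Polynomial

namespace Pool.Agent.NH25.UF

open Pool.Agent.Y113.GG Pool.Agent.Y921.DB

section words

variable {τ : Type} [Fintype τ] {δ D : ℕ}

/-- a polynomial of degree at most `D * δ` is a combination of products of words -/
lemma exists_fr {A : Type} [CommRing A] (P : MvPolynomial τ A) (hP : P.totalDegree ≤ D * δ) :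
    ∃ f : (Fin D → Fin δ → Option τ) → A, P = ∑ W, MvPolynomial.C (f W) * ∏ i, wv (fun t => MvPolynomial.X t) (W i) := by
  classical
  have h : ∀ μ : τ →₀ ℕ, ∃ W : Fin D → Fin δ → Option τ,
      μ ∈ P.support → ∏ i, wv (fun t => (MvPolynomial.X t : MvPolynomial τ A)) (W i) = ∏ t, MvPolynomial.X t ^ μ t := by
    intro μ
    by_cases hμ : μ ∈ P.support
    · have h1 := (MvPolynomial.le_totalDegree hμ).trans hP
      rw [Finsupp.sum_fintype _ _ (fun _ => rfl)] at h1
      obtain ⟨h, hh⟩ := exists_wv (D * δ) (fun i => μ i) h1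
      refine ⟨fun i a => h (finProdFinEquiv (i, a)), fun _ => ?_⟩
      rw [← hh]
      unfold wv
      rw [← finProdFinEquiv.prod_comp, Fintype.prod_prod_type]
    · exact ⟨fun _ _ => none, fun h => absurd h hμ⟩
  choose H hH using h
  refine ⟨fun W => ∑ μ ∈ P.support, if H μ = W then P.coeff μ else 0, ?_⟩
  conv_lhs => rw [P.as_sum]
  simp only [map_sum, Finset.sum_mul]
  rw [Finset.sum_comm]
  refine Finset.sum_congr rfl fun μ hμ => ?_
  rw [Finset.sum_eq_single (H μ)]
  · rw [if_pos rfl, hH μ hμ, MvPolynomial.monomial_eq, Finsupp.prod_fintype _ _ fun _ => pow_zero _]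
  · intro w _ hw
    rw [if_neg (Ne.symm hw), map_zero, zero_mul]
  · intro hh; exact absurd (Finset.mem_univ _) hh

end words

variable {A : Type} [CommRing A] [IsDomain A] [CharZero A] {τ : Type} [Fintype τ]

/-- an algebraic element of the field of fractions of the quotient by `𝔭` is in the field of fractions of `A` -/
def NoAlg (𝔭 : Ideal (MvPolynomial τ A)) : Prop :=
  ∀ G₁ G₂ : MvPolynomial τ A, G₂ ∉ 𝔭 → ∀ q : A[X], q ≠ 0 →
    (∑ j ∈ Finset.range (q.natDegree + 1), MvPolynomial.C (q.coeff j) * G₁ ^ j * G₂ ^ (q.natDegree - j)) ∈ 𝔭 →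
    ∃ a b : A, b ≠ 0 ∧ MvPolynomial.C b * G₁ - MvPolynomial.C a * G₂ ∈ 𝔭

attribute [local instance] FractionRing.liftAlgebra

section
variable (𝔭 : Ideal (MvPolynomial τ A)) [𝔭.IsPrime]

/-- the field of the variety -/
abbrev FF : Type := FractionRing (MvPolynomial τ A ⧸ 𝔭)

omit [CharZero A] [Fintype τ] in
lemma inj_FF (h0 : ∀ a : A, MvPolynomial.C a ∈ 𝔭 → a = 0) : Function.Injective (algebraMap A (FF 𝔭)) := by
  rw [injective_iff_map_eq_zero]
  intro a ha
  rw [IsScalarTower.algebraMap_apply A (MvPolynomial τ A ⧸ 𝔭) (FF 𝔭)] at ha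
  have h1 := (IsFractionRing.injective (MvPolynomial τ A ⧸ 𝔭) (FF 𝔭)) (ha.trans (map_zero _).symm)
  apply h0
  rw [← Ideal.Quotient.eq_zero_iff_mem, ← h1]
  rfl

/-- the class of a polynomial -/
noncomputable def cls (G : MvPolynomial τ A) : FF 𝔭 := algebraMap (MvPolynomial τ A ⧸ 𝔭) (FF 𝔭) (Ideal.Quotient.mk 𝔭 G)

omit [CharZero A] [Fintype τ] in
lemma cls_zero {G : MvPolynomial τ A} : cls 𝔭 G = 0 ↔ G ∈ 𝔭 := by
  unfold cls
  rw [← Ideal.Quotient.eq_zero_iff_mem]
  constructor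
  · intro h
    exact (IsFractionRing.injective (MvPolynomial τ A ⧸ 𝔭) (FF 𝔭)) (h.trans (map_zero _).symm)
  · intro h
    rw [h, map_zero]

omit [CharZero A] [Fintype τ] in
lemma cls_C (a : A) : cls 𝔭 (MvPolynomial.C a) = algebraMap A (FF 𝔭) a := rfl

omit [CharZero A] [Fintype τ] in
lemma cls_mul (G G' : MvPolynomial τ A) : cls 𝔭 (G * G') = cls 𝔭 G * cls 𝔭 G' := by
  unfold cls
  rw [map_mul, map_mul]

omit [CharZero A] [Fintype τ] in
lemma cls_sum {σ : Type} (S : Finset σ) (G : σ → MvPolynomial τ A) : cls 𝔭 (∑ i ∈ S, G i) = ∑ i ∈ S, cls 𝔭 (G i) := by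
  unfold cls
  rw [map_sum, map_sum]

omit [CharZero A] [Fintype τ] in
lemma cls_prod {σ : Type} (S : Finset σ) (G : σ → MvPolynomial τ A) : cls 𝔭 (∏ i ∈ S, G i) = ∏ i ∈ S, cls 𝔭 (G i) := by
  unfold cls
  rw [map_prod, map_prod]

omit [CharZero A] [Fintype τ] in
lemma cls_pow (G : MvPolynomial τ A) (n : ℕ) : cls 𝔭 (G ^ n) = cls 𝔭 G ^ n := by
  unfold cls
  rw [map_pow, map_pow]

omit [CharZero A] [Fintype τ] in
lemma alg_in [FaithfulSMul A (FF 𝔭)] (hH : NoAlg 𝔭) (x : FF 𝔭) (hx : IsIntegral (FractionRing A) x) :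
    ∃ y : FractionRing A, algebraMap (FractionRing A) (FF 𝔭) y = x := by
  have hx1 : IsAlgebraic A x := (IsFractionRing.isAlgebraic_iff A (FractionRing A) (FF 𝔭)).2 hx.isAlgebraic
  obtain ⟨q, hq0, hq⟩ := hx1
  obtain ⟨B₁, B₂, hB₂, rfl⟩ := IsFractionRing.div_surjective (A := MvPolynomial τ A ⧸ 𝔭) x
  obtain ⟨G₁, rfl⟩ := Ideal.Quotient.mk_surjective B₁
  obtain ⟨G₂, rfl⟩ := Ideal.Quotient.mk_surjective B₂
  have hG₂ : G₂ ∉ 𝔭 := by
    intro h
    rw [← Ideal.Quotient.eq_zero_iff_mem] at h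
    exact nonZeroDivisors.ne_zero hB₂ h
  have hc2 : cls 𝔭 G₂ ≠ 0 := fun h => hG₂ ((cls_zero 𝔭).1 h)
  have hxx : (algebraMap (MvPolynomial τ A ⧸ 𝔭) (FF 𝔭) (Ideal.Quotient.mk 𝔭 G₁)) /
      (algebraMap (MvPolynomial τ A ⧸ 𝔭) (FF 𝔭) (Ideal.Quotient.mk 𝔭 G₂)) = cls 𝔭 G₁ / cls 𝔭 G₂ := rfl
  rw [hxx] at hq ⊢
  obtain ⟨a, b, hb, hab⟩ := hH G₁ G₂ hG₂ q hq0 (by
    rw [← cls_zero 𝔭, cls_sum]
    rw [Polynomial.aeval_eq_sum_range] at hq
    have h1 : ∀ j ∈ Finset.range (q.natDegree + 1), cls 𝔭 (MvPolynomial.C (q.coeff j) * G₁ ^ j * G₂ ^ (q.natDegree - j)) =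
        (q.coeff j • (cls 𝔭 G₁ / cls 𝔭 G₂) ^ j) * cls 𝔭 G₂ ^ q.natDegree := by
      intro j hj
      rw [Finset.mem_range] at hj
      rw [cls_mul, cls_mul, cls_C, cls_pow, cls_pow, Algebra.smul_def, div_pow]
      have h2 : cls 𝔭 G₂ ^ q.natDegree = cls 𝔭 G₂ ^ j * cls 𝔭 G₂ ^ (q.natDegree - j) := by
        rw [← pow_add]
        congr 1
        omega
      rw [h2]
      field_simp
    rw [Finset.sum_congr rfl h1, ← Finset.sum_mul, hq, zero_mul])
  refine ⟨algebraMap A _ a / algebraMap A _ b, ?_⟩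
  have h2 : algebraMap A (FF 𝔭) b * cls 𝔭 G₁ = algebraMap A (FF 𝔭) a * cls 𝔭 G₂ := by
    rw [← cls_C, ← cls_C, ← cls_mul, ← cls_mul, ← sub_eq_zero]
    have h3 : cls 𝔭 (MvPolynomial.C b * G₁ - MvPolynomial.C a * G₂) = cls 𝔭 (MvPolynomial.C b * G₁) - cls 𝔭 (MvPolynomial.C a * G₂) := by
      unfold cls
      rw [map_sub, map_sub]
    rw [← h3, cls_zero]
    exact hab
  have hbb : algebraMap A (FF 𝔭) b ≠ 0 := by
    intro h
    exact hb ((FaithfulSMul.algebraMap_injective A (FF 𝔭)) (h.trans (map_zero _).symm))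
  rw [map_div₀, ← IsScalarTower.algebraMap_apply, ← IsScalarTower.algebraMap_apply, div_eq_div_iff hbb hc2]
  linear_combination -h2

omit [CharZero A] [Fintype τ] in
/-- linear equations over `A` -/
lemma exists_eqsA [FaithfulSMul A (FF 𝔭)] {W : Type} [Fintype W] (c : W → FF 𝔭) : ∃ (r : ℕ) (R : Fin r → W → A),
    ∀ y : W → FractionRing A, (∀ j, ∑ w, algebraMap A (FractionRing A) (R j w) * y w = 0) ↔
      ∑ w, algebraMap (FractionRing A) (FF 𝔭) (y w) * c w = 0 := by
  classical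
  obtain ⟨r, R₀, hR₀⟩ := exists_eqs (K := FractionRing A) c
  obtain ⟨b, hb⟩ := IsLocalization.exist_integer_multiples_of_finite (nonZeroDivisors A)
    (fun p : Fin r × W => R₀ p.1 p.2)
  choose R hR using hb
  refine ⟨r, fun j w => R (j, w), fun y => ?_⟩
  rw [← hR₀ y]
  have hb0 : algebraMap A (FractionRing A) (b : A) ≠ 0 := by
    intro h
    exact nonZeroDivisors.coe_ne_zero b (IsFractionRing.injective A (FractionRing A) (h.trans (map_zero _).symm))
  have h1 : ∀ j, ∑ w, algebraMap A (FractionRing A) (R (j, w)) * y w =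
      algebraMap A (FractionRing A) (b : A) * ∑ w, R₀ j w * y w := by
    intro j
    rw [Finset.mul_sum]
    refine Finset.sum_congr rfl fun w _ => ?_
    rw [hR (j, w), Algebra.smul_def, mul_assoc]
  constructor
  · intro h j
    have := h j
    rw [h1] at this
    exact (mul_eq_zero.1 this).resolve_left hb0
  · intro h j
    rw [h1, h j, mul_zero]

end

open Classical in
/-- **Specialisation of the ideal.** -/
theorem spec_prod (𝔭 : Ideal (MvPolynomial τ A)) [𝔭.IsPrime] (h0 : ∀ a : A, MvPolynomial.C a ∈ 𝔭 → a = 0)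
    (hH : NoAlg 𝔭) (D δ : ℕ) : ∃ (r : ℕ) (R : Fin r → (Fin δ → Option τ) → A) (Δ : A), Δ ≠ 0 ∧
      (∀ x : (Fin δ → Option τ) → A, (∀ j, ∑ w, R j w * x w = 0) ↔
        ∑ w, MvPolynomial.C (x w) * wv (fun t => MvPolynomial.X t) w ∈ 𝔭) ∧
      ∀ (Q : Type) [Field Q] (i : Q →+* A) (φ : A →+* Q), φ.comp i = RingHom.id Q → φ Δ ≠ 0 →
        (∀ x : (Fin δ → Option τ) → Q, (∀ j, ∑ w, φ (R j w) * x w = 0) → ∃ g : (Fin δ → Option τ) → A,
          (∀ j, ∑ w, R j w * g w = 0) ∧ ∀ w, φ (g w) = x w) ∧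
        (∀ x : Fin D → (Fin δ → Option τ) → Q, (∃ G ∈ 𝔭, G.totalDegree ≤ D * δ ∧
          G.map φ = ∏ i, ∑ w, MvPolynomial.C (x i w) * wv (fun t => MvPolynomial.X t) w) →
          ∃ i, ∀ j, ∑ w, φ (R j w) * x i w = 0) ∧
        ¬ ∀ j, φ (R j fun _ => none) = 0 := by
  have hinj := inj_FF 𝔭 h0
  have hF : FaithfulSMul A (FF 𝔭) := (faithfulSMul_iff_algebraMap_injective A (FF 𝔭)).2 hinj
  have hK := alg_in 𝔭 hH
  have hch : CharZero (FractionRing A) := charZero_of_injective_algebraMap (IsFractionRing.injective A (FractionRing A))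
  -- the classes of the words
  set c : (Fin δ → Option τ) → FF 𝔭 := fun w => cls 𝔭 (wv (fun t => MvPolynomial.X t) w) with hc
  obtain ⟨r, R, hR⟩ := exists_eqsA 𝔭 c
  obtain ⟨r', R', hR'⟩ := exists_eqsA 𝔭 (fun W : Fin D → Fin δ → Option τ => ∏ i, c (W i))
  have hAK : ∀ a : A, algebraMap A (FractionRing A) a = 0 → a = 0 := fun a h =>
    IsFractionRing.injective A (FractionRing A) (h.trans (map_zero _).symm)
  -- over `A`
  have hRA : ∀ x : (Fin δ → Option τ) → A, (∀ j, ∑ w, R j w * x w = 0) ↔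
        ∑ w, MvPolynomial.C (x w) * wv (fun t => MvPolynomial.X t) w ∈ 𝔭 := by
    intro x
    rw [← cls_zero 𝔭, cls_sum]
    have h1 := hR fun w => algebraMap A (FractionRing A) (x w)
    have h2 : ∀ j, ∑ w, algebraMap A (FractionRing A) (R j w) * algebraMap A (FractionRing A) (x w) =
        algebraMap A (FractionRing A) (∑ w, R j w * x w) := by
      intro j
      rw [map_sum]
      exact Finset.sum_congr rfl fun w _ => (map_mul _ _ _).symm
    have h3 : ∑ w, cls 𝔭 (MvPolynomial.C (x w) * wv (fun t => MvPolynomial.X t) w) =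
        ∑ w, algebraMap (FractionRing A) (FF 𝔭) (algebraMap A (FractionRing A) (x w)) * c w := by
      refine Finset.sum_congr rfl fun w _ => ?_
      rw [cls_mul, cls_C, ← IsScalarTower.algebraMap_apply]
    rw [h3, ← h1]
    simp only [h2]
    exact ⟨fun h j => by rw [h j, map_zero], fun h j => hAK _ (h j)⟩
  have hRA' : ∀ x : (Fin D → Fin δ → Option τ) → A, (∀ j, ∑ w, R' j w * x w = 0) ↔
        ∑ w, MvPolynomial.C (x w) * ∏ i, wv (fun t => MvPolynomial.X t) (w i) ∈ 𝔭 := by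
    intro x
    rw [← cls_zero 𝔭, cls_sum]
    have h1 := hR' fun w => algebraMap A (FractionRing A) (x w)
    have h2 : ∀ j, ∑ w, algebraMap A (FractionRing A) (R' j w) * algebraMap A (FractionRing A) (x w) =
        algebraMap A (FractionRing A) (∑ w, R' j w * x w) := by
      intro j
      rw [map_sum]
      exact Finset.sum_congr rfl fun w _ => (map_mul _ _ _).symm
    have h3 : ∑ w, cls 𝔭 (MvPolynomial.C (x w) * ∏ i, wv (fun t => MvPolynomial.X t) (w i)) =
        ∑ w, algebraMap (FractionRing A) (FF 𝔭) (algebraMap A (FractionRing A) (x w)) * ∏ i, c (w i) := by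
      refine Finset.sum_congr rfl fun w _ => ?_
      rw [cls_mul, cls_C, ← IsScalarTower.algebraMap_apply, cls_prod]
    rw [h3, ← h1]
    simp only [h2]
    exact ⟨fun h j => by rw [h j, map_zero], fun h j => hAK _ (h j)⟩
  -- the unit word
  obtain ⟨j₀, hj₀⟩ : ∃ j, R j (fun _ => none) ≠ 0 := by
    by_contra hcon
    push Not at hcon
    have h1 := (hRA (Pi.single (fun _ => none) 1)).1 fun j => by
      refine Finset.sum_eq_zero fun w _ => ?_
      by_cases hw : w = fun _ => none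
      · rw [hw, hcon j, zero_mul]
      · rw [Pi.single_eq_of_ne hw, mul_zero]
    have h2 : ∑ w, MvPolynomial.C ((Pi.single (fun _ => none) 1 : (Fin δ → Option τ) → A) w) *
        wv (fun t => (MvPolynomial.X t : MvPolynomial τ A)) w = 1 := by
      rw [Finset.sum_eq_single (fun _ => none)]
      · rw [Pi.single_eq_same, map_one, one_mul]
        unfold wv
        simp
      · intro w _ hw
        rw [Pi.single_eq_of_ne hw, map_zero, zero_mul]
      · intro hh
        exact absurd (Finset.mem_univ _) hh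
    rw [h2] at h1
    exact (Ideal.ne_top_iff_one 𝔭).1 (Ideal.IsPrime.ne_top inferInstance) h1
  -- the kernel
  obtain ⟨Δ₁, hΔ₁, hker⟩ := ker_spec (fun (w : Fin δ → Option τ) (j : Fin r) => R j w)
  -- the theorem of zeros
  set g : Fin r' → MvPolynomial (Fin D × (Fin δ → Option τ)) A := fun a =>
    ∑ W : Fin D → Fin δ → Option τ, MvPolynomial.C (R' a W) * ∏ i, MvPolynomial.X (i, W i) with hg
  set hh : (Fin D → Fin r) → MvPolynomial (Fin D × (Fin δ → Option τ)) A := fun f =>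
    ∏ i, ∑ w, MvPolynomial.C (R (f i) w) * MvPolynomial.X (i, w) with hhh
  have hnull : ∀ f : Fin D → Fin r, ∃ (Δ : A) (N : ℕ) (q : Fin r' → MvPolynomial (Fin D × (Fin δ → Option τ)) A),
      Δ ≠ 0 ∧ MvPolynomial.C Δ * hh f ^ N = ∑ a, q a * g a := by
    intro f
    refine null g (hh f) fun x hx => ?_
    obtain ⟨i, hi⟩ := gen_prod hK c D (fun j w => algebraMap A (FractionRing A) (R j w)) hR
      (fun j w => algebraMap A (FractionRing A) (R' j w)) hR' (fun i w => x (i, w)) (fun a => by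
        have h1 := hx a
        rw [hg] at h1
        simp only [map_sum, map_mul, map_prod, MvPolynomial.aeval_X, MvPolynomial.aeval_C] at h1
        rw [← h1]
        refine Finset.sum_congr rfl fun W _ => ?_
        rw [← IsScalarTower.algebraMap_apply])
    rw [hhh]
    simp only [map_prod, map_sum, map_mul, MvPolynomial.aeval_X, MvPolynomial.aeval_C]
    refine Finset.prod_eq_zero (Finset.mem_univ i) ?_
    rw [← hi (f i)]
    refine Finset.sum_congr rfl fun w _ => ?_
    rw [← IsScalarTower.algebraMap_apply]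
  choose Δf Nf qf hΔf hid using hnull
  refine ⟨r, R, Δ₁ * (∏ f, Δf f) * R j₀ (fun _ => none),
    mul_ne_zero (mul_ne_zero hΔ₁ (Finset.prod_ne_zero_iff.2 fun f _ => hΔf f)) hj₀, hRA,
    fun Q _ i φ hφ hΔ => ?_⟩
  rw [map_mul, map_mul, map_prod] at hΔ
  have hΔ1 : φ Δ₁ ≠ 0 := left_ne_zero_of_mul (left_ne_zero_of_mul hΔ)
  have hΔ2 : ∀ f, φ (Δf f) ≠ 0 := fun f =>
    Finset.prod_ne_zero_iff.1 (right_ne_zero_of_mul (left_ne_zero_of_mul hΔ)) f (Finset.mem_univ f)
  have hΔ3 : φ (R j₀ fun _ => none) ≠ 0 := right_ne_zero_of_mul hΔ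
  have hφi : ∀ x, φ (i x) = x := fun x => by
    have := congrArg (fun L => L x) hφ
    simpa using this
  refine ⟨fun x hx => ?_, fun x hG => ?_, fun hcon => hΔ3 (hcon j₀)⟩
  · obtain ⟨g', hg1, hg2⟩ := hker Q i φ hφ hΔ1 x (fun j => by
      rw [← hx j]
      exact Finset.sum_congr rfl fun w _ => mul_comm _ _)
    refine ⟨g', fun j => ?_, hg2⟩
    rw [← hg1 j]
    exact Finset.sum_congr rfl fun w _ => mul_comm _ _
  · obtain ⟨G, hG1, hG2, hG3⟩ := hG
    obtain ⟨y, hy⟩ := exists_fr G hG2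
    have hy1 : ∀ a, ∑ W, R' a W * y W = 0 := (hRA' y).2 (by rw [← hy]; exact hG1)
    -- the difference of two representations
    have hd : ∑ W : Fin D → Fin δ → Option τ, MvPolynomial.C (φ (y W) - ∏ i, x i (W i)) *
        ∏ i, wv (fun t => (MvPolynomial.X t : MvPolynomial τ Q)) (W i) = 0 := by
      have h1 : G.map φ = ∑ W, MvPolynomial.C (φ (y W)) * ∏ i, wv (fun t => MvPolynomial.X t) (W i) := by
        conv_lhs => rw [hy]
        rw [map_sum]
        refine Finset.sum_congr rfl fun W _ => ?_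
        rw [map_mul, MvPolynomial.map_C, map_prod]
        congr 1
        refine Finset.prod_congr rfl fun i _ => ?_
        rw [map_wv]
        congr 1
        funext t
        rw [MvPolynomial.map_X]
      have h2 : ∏ i, ∑ w, MvPolynomial.C (x i w) * wv (fun t => (MvPolynomial.X t : MvPolynomial τ Q)) w =
          ∑ W : Fin D → Fin δ → Option τ, MvPolynomial.C (∏ i, x i (W i)) *
            ∏ i, wv (fun t => (MvPolynomial.X t : MvPolynomial τ Q)) (W i) := by
        rw [Finset.prod_univ_sum, Fintype.piFinset_univ]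
        refine Finset.sum_congr rfl fun W _ => ?_
        rw [Finset.prod_mul_distrib, map_prod]
      simp only [map_sub, sub_mul, Finset.sum_sub_distrib]
      rw [← h1, ← h2, hG3, sub_self]
    have hd2 : ∀ a, ∑ W : Fin D → Fin δ → Option τ, R' a W * i (φ (y W) - ∏ i, x i (W i)) = 0 := by
      refine (hRA' fun W => i (φ (y W) - ∏ i, x i (W i))).2 ?_
      have h1 := congrArg (MvPolynomial.map i) hd
      rw [map_sum, map_zero] at h1
      have h2 : ∑ W : Fin D → Fin δ → Option τ, MvPolynomial.C (i (φ (y W) - ∏ i, x i (W i))) *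
          ∏ i, wv (fun t => (MvPolynomial.X t : MvPolynomial τ A)) (W i) = 0 := by
        rw [← h1]
        refine Finset.sum_congr rfl fun W _ => ?_
        rw [map_mul, MvPolynomial.map_C, map_prod]
        congr 1
        refine Finset.prod_congr rfl fun i' _ => ?_
        rw [map_wv]
        congr 1
        funext t
        rw [MvPolynomial.map_X]
      rw [h2]
      exact 𝔭.zero_mem
    have hx0 : ∀ a, ∑ W : Fin D → Fin δ → Option τ, φ (R' a W) * ∏ i, x i (W i) = 0 := by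
      intro a
      have h1 := congrArg φ (hy1 a)
      have h2 := congrArg φ (hd2 a)
      rw [map_sum, map_zero] at h1 h2
      simp only [map_mul, hφi, mul_sub, Finset.sum_sub_distrib] at h1 h2
      rw [h1, zero_sub, neg_eq_zero] at h2
      exact h2
    by_contra hcon
    push Not at hcon
    choose f hf using hcon
    have h1 := congrArg (MvPolynomial.eval₂Hom φ (fun p : Fin D × (Fin δ → Option τ) => x p.1 p.2)) (hid f)
    rw [map_mul, map_pow, map_sum] at h1
    have h2 : ∀ a, MvPolynomial.eval₂Hom φ (fun p : Fin D × (Fin δ → Option τ) => x p.1 p.2) (g a) = 0 := by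
      intro a
      rw [← hx0 a, hg]
      simp only [map_sum, map_mul, map_prod, MvPolynomial.coe_eval₂Hom, MvPolynomial.eval₂_X, MvPolynomial.eval₂_C]
    rw [Finset.sum_eq_zero (fun a _ => by rw [map_mul, h2, mul_zero]), MvPolynomial.coe_eval₂Hom,
      MvPolynomial.eval₂_C] at h1
    have h3 : MvPolynomial.eval₂ φ (fun p : Fin D × (Fin δ → Option τ) => x p.1 p.2) (hh f) =
        ∏ i, ∑ w, φ (R (f i) w) * x i w := by
      rw [← MvPolynomial.coe_eval₂Hom, hhh]
      simp only [map_sum, map_mul, map_prod, MvPolynomial.coe_eval₂Hom, MvPolynomial.eval₂_X, MvPolynomial.eval₂_C]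
    rw [h3] at h1
    exact (mul_ne_zero (hΔ2 f) (pow_ne_zero _ (Finset.prod_ne_zero_iff.2 fun i _ => hf i))) h1

end Pool.Agent.NH25.UF
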